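import Mathlib
import Pool.Agent.Lib.MP_551055_al.Trim.X.MP_e6f638_al.Stmts

/-!
# Module I1: homomorphisms of even Artin groups
-/

set_option autoImplicit false

namespace Pool.Agent.Lib.MP_e6f638_al

open Multiplicative

section

variable {S : Type} (l : S → S → ℕ)

theorem gen_rel (s t : S) : (gen l s * gen l t) ^ l s t = (gen l t * gen l s) ^ l s t := by
  have h : (PresentedGroup.mk (rels l)) ((FreeGroup.of s * FreeGroup.of t) ^ l s t *
      ((FreeGroup.of t * FreeGroup.of s) ^ l s t)⁻¹) = 1 :=
    PresentedGroup.one_of_mem ⟨s, t, rfl⟩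
  rw [map_mul, map_inv, map_pow, map_pow, map_mul, map_mul, mul_inv_eq_one] at h
  exact h

/-- The homomorphism given on generators. -/
noncomputable def liftEA {K : Type} [Group K] (f : S → K)
    (h : ∀ s t, (f s * f t) ^ l s t = (f t * f s) ^ l s t) : EA l →* K :=
  PresentedGroup.toGroup (f := f) (by
    rintro r ⟨s, t, rfl⟩
    simp [h s t])

@[simp]
theorem liftEA_gen {K : Type} [Group K] (f : S → K)
    (h : ∀ s t, (f s * f t) ^ l s t = (f t * f s) ^ l s t) (s : S) :
    liftEA l f h (gen l s) = f s :=
  PresentedGroup.toGroup.of _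

theorem hom_ext_EA {K : Type} [Group K] {F F' : EA l →* K}
    (h : ∀ s, F (gen l s) = F' (gen l s)) : F = F' :=
  PresentedGroup.ext h

theorem closure_gen : Subgroup.closure (Set.range (gen l)) = ⊤ :=
  PresentedGroup.closure_range_of _

open Classical in
/-- The retraction onto the standard subgroup of `X`, with values in the smaller group. -/
noncomputable def retr (X : Set S) : EA l →* EA (fun a b : X => l a b) :=
  liftEA l (fun s => if h : s ∈ X then gen _ (⟨s, h⟩ : X) else 1) (by
    intro s t
    by_cases hs : s ∈ X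
    · by_cases ht : t ∈ X
      · simp only [dif_pos hs, dif_pos ht]
        exact gen_rel (fun a b : X => l a b) ⟨s, hs⟩ ⟨t, ht⟩
      · simp [dif_pos hs, dif_neg ht]
    · simp [dif_neg hs])

theorem retr_mem {X : Set S} {s : S} (h : s ∈ X) : retr l X (gen l s) = gen _ (⟨s, h⟩ : X) := by
  simp [retr, h]

theorem retr_not_mem {X : Set S} {s : S} (h : s ∉ X) : retr l X (gen l s) = 1 := by
  simp [retr, h]

/-- The inclusion of the group of `X`. -/
noncomputable def incl (X : Set S) : EA (fun a b : X => l a b) →* EA l :=
  liftEA _ (fun a => gen l (a : S)) (fun a b => gen_rel l a b)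

@[simp]
theorem incl_gen {X : Set S} (a : X) : incl l X (gen _ a) = gen l (a : S) :=
  liftEA_gen _ _ _ _

theorem retr_incl (X : Set S) (y : EA (fun a b : X => l a b)) : retr l X (incl l X y) = y := by
  have : (retr l X).comp (incl l X) = MonoidHom.id _ := by
    refine hom_ext_EA _ fun a => ?_
    rw [MonoidHom.comp_apply, incl_gen, retr_mem l a.2, MonoidHom.id_apply]
  exact DFunLike.congr_fun this y

theorem incl_injective (X : Set S) : Function.Injective (incl l X) :=
  Function.LeftInverse.injective (retr_incl l X)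

/-- The weight homomorphism. -/
noncomputable def wt (f : S → ℤ) : EA l →* Multiplicative ℤ :=
  liftEA l (fun s => ofAdd (f s)) (fun s t => by rw [mul_comm])

@[simp]
theorem wt_gen (f : S → ℤ) (s : S) : wt l f (gen l s) = ofAdd (f s) := liftEA_gen _ _ _ _

/-- The retraction onto `par l X` as an endomorphism. -/
noncomputable def rho (X : Set S) : EA l →* EA l := (incl l X).comp (retr l X)

theorem rho_mem {X : Set S} {s : S} (h : s ∈ X) : rho l X (gen l s) = gen l s := by
  rw [rho, MonoidHom.comp_apply, retr_mem l h, incl_gen]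

theorem rho_not_mem {X : Set S} {s : S} (h : s ∉ X) : rho l X (gen l s) = 1 := by
  rw [rho, MonoidHom.comp_apply, retr_not_mem l h, map_one]

theorem gen_mem_par {X : Set S} {s : S} (h : s ∈ X) : gen l s ∈ par l X :=
  Subgroup.subset_closure ⟨s, h, rfl⟩

theorem par_mono {X Y : Set S} (h : X ⊆ Y) : par l X ≤ par l Y :=
  Subgroup.closure_mono (Set.image_mono h)

/-- `rho` is the identity on `par l X`. -/
theorem rho_par {X : Set S} {y : EA l} (h : y ∈ par l X) : rho l X y = y := by
  induction h using Subgroup.closure_induction with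
  | mem x hx => obtain ⟨s, hs, rfl⟩ := hx; exact rho_mem l hs
  | one => exact map_one _
  | mul x y _ _ hx hy => rw [map_mul, hx, hy]
  | inv x _ hx => rw [map_inv, hx]

/-- `rho` takes values in `par l X`. -/
theorem rho_mem_par (X : Set S) (y : EA l) : rho l X y ∈ par l X := by
  have h : y ∈ Subgroup.closure (Set.range (gen l)) := by rw [closure_gen]; trivial
  induction h using Subgroup.closure_induction with
  | mem x hx =>
    obtain ⟨s, rfl⟩ := hx
    by_cases hs : s ∈ X
    · rw [rho_mem l hs]; exact gen_mem_par l hs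
    · rw [rho_not_mem l hs]; exact one_mem _
  | one => rw [map_one]; exact one_mem _
  | mul x y _ _ hx hy => rw [map_mul]; exact mul_mem hx hy
  | inv x _ hx => rw [map_inv]; exact inv_mem hx

/-- The image of a standard subgroup under a retraction. -/
theorem rho_par_le {X Y : Set S} {y : EA l} (h : y ∈ par l Y) : rho l X y ∈ par l (X ∩ Y) := by
  induction h using Subgroup.closure_induction with
  | mem x hx =>
    obtain ⟨s, hs, rfl⟩ := hx
    by_cases hs' : s ∈ X
    · rw [rho_mem l hs']; exact gen_mem_par l ⟨hs', hs⟩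
    · rw [rho_not_mem l hs']; exact one_mem _
  | one => rw [map_one]; exact one_mem _
  | mul x y _ _ hx hy => rw [map_mul]; exact mul_mem hx hy
  | inv x _ hx => rw [map_inv]; exact inv_mem hx

/-- Intersections of standard subgroups. -/
theorem par_inter {X Y : Set S} {y : EA l} (h1 : y ∈ par l X) (h2 : y ∈ par l Y) :
    y ∈ par l (X ∩ Y) := by
  rw [← rho_par l h1]
  exact rho_par_le l h2

/-- The weights vanish on standard subgroups. -/
theorem wt_par {f : S → ℤ} {X : Set S} (hf : ∀ s ∈ X, f s = 0) {y : EA l} (h : y ∈ par l X) :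
    wt l f y = 1 := by
  induction h using Subgroup.closure_induction with
  | mem x hx => obtain ⟨s, hs, rfl⟩ := hx; rw [wt_gen, hf s hs, ofAdd_zero]
  | one => exact map_one _
  | mul x y _ _ hx hy => rw [map_mul, hx, hy, mul_one]
  | inv x _ hx => rw [map_inv, hx, inv_one]

/-- Generators are different. -/
theorem gen_injective : Function.Injective (gen l) := by
  classical
  intro s t h
  by_contra hne
  have h1 := congrArg (wt l (fun x => if x = s then 1 else 0)) h
  rw [wt_gen, wt_gen, if_pos rfl, if_neg (Ne.symm hne)] at h1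
  exact absurd (ofAdd.injective h1) one_ne_zero

end

/-- Module I1. -/
theorem stI1 : StI1 := by
  intro S l _
  refine ⟨fun f => ⟨wt l f, wt_gen l f⟩, fun X => ⟨rho l X, fun s hs => rho_mem l hs,
    fun s hs => rho_not_mem l hs⟩, fun K _ f h => ⟨liftEA l f h, liftEA_gen l f h⟩,
    fun X => ⟨incl l X, incl_gen l, incl_injective l X⟩⟩

end Pool.Agent.Lib.MP_e6f638_al
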