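import Mathlib
import Pool.Agent.Lib.MP_551055_al.Trim.X.MP_e6f638_al.Stmts

/-!
# Tits alternative for even Artin groups: closure properties of the class `TA`
-/

set_option autoImplicit false

namespace Pool.Agent.Lib.MP_e6f638_al

section

variable {G K : Type*} [Group G] [Group K]

/-- Free subgroups lift. -/
theorem hasF2_of_map (f : G →* K) {H : Subgroup G} (h : HasF2 (H.map f)) : HasF2 H := by
  obtain ⟨φ, hφ, hr⟩ := h
  have h1 : ∀ i : Fin 2, ∃ g ∈ H, f g = φ (FreeGroup.of i) := fun i =>
    Subgroup.mem_map.1 (hr ⟨FreeGroup.of i, rfl⟩)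
  choose g hg hfg using h1
  have h2 : f.comp (FreeGroup.lift g) = φ := by
    ext i
    rw [MonoidHom.comp_apply, FreeGroup.lift_apply_of, hfg]
  refine ⟨FreeGroup.lift g, ?_, ?_⟩
  · intro x y hxy
    apply hφ
    rw [← h2, MonoidHom.comp_apply, MonoidHom.comp_apply, hxy]
  · rw [FreeGroup.range_lift_eq_closure, Subgroup.closure_le]
    rintro _ ⟨i, rfl⟩
    exact hg i

/-- Free subgroups of a subgroup. -/
theorem HasF2.map {H : Subgroup G} (h : HasF2 H) (f : G →* K) (hf : Function.Injective f) :
    HasF2 (H.map f) := by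
  obtain ⟨φ, hφ, hr⟩ := h
  refine ⟨f.comp φ, hf.comp hφ, ?_⟩
  rintro _ ⟨x, rfl⟩
  exact ⟨φ x, hr ⟨x, rfl⟩, rfl⟩

theorem HasF2.mono {H H' : Subgroup G} (h : HasF2 H) (hH : H ≤ H') : HasF2 H' := by
  obtain ⟨φ, hφ, hr⟩ := h
  exact ⟨φ, hφ, hr.trans hH⟩

theorem derived_of_inj (f : G →* K) (hf : Function.Injective f) {n : ℕ}
    (h : derivedSeries K n = ⊥) : derivedSeries G n = ⊥ := by
  have h1 := map_derivedSeries_le_derivedSeries f n
  rw [h, le_bot_iff] at h1
  exact (Subgroup.map_eq_bot_iff_of_injective _ hf).1 h1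

/-- The derived series of a subgroup which contains the `k`-th derived group. -/
theorem derived_add {P : Subgroup G} {k : ℕ} (h : derivedSeries G k ≤ P) :
    ∀ n, derivedSeries G (k + n) ≤ (derivedSeries P n).map P.subtype
  | 0 => by
    change derivedSeries G k ≤ (⊤ : Subgroup P).map P.subtype
    rw [← MonoidHom.range_eq_map, Subgroup.range_subtype]
    exact h
  | n + 1 => by
    change ⁅derivedSeries G (k + n), derivedSeries G (k + n)⁆ ≤
      (⁅derivedSeries P n, derivedSeries P n⁆ : Subgroup P).map P.subtype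
    rw [Subgroup.map_commutator]
    exact Subgroup.commutator_mono (derived_add h n) (derived_add h n)

theorem derived_add_bot {P : Subgroup G} {k n : ℕ} (h : derivedSeries G k ≤ P)
    (hn : derivedSeries P n = ⊥) : derivedSeries G (k + n) = ⊥ := by
  have h1 := derived_add h n
  rwa [hn, Subgroup.map_bot, le_bot_iff] at h1

/-- Extensions. -/
theorem TA.ext (f : G →* K) {d e : ℕ} (h : TA d f.ker) (h' : TA e K) : TA (e + d) G := by
  intro H hH
  have h1 : derivedSeries (H.map f) e = ⊥ := h' _ fun h2 => hH (hasF2_of_map f h2)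
  have h2 : derivedSeries (H.subgroupOf f.ker) d = ⊥ := by
    refine h _ fun h3 => hH ?_
    have h4 := h3.map f.ker.subtype Subtype.val_injective
    refine h4.mono ?_
    rintro _ ⟨x, hx, rfl⟩
    exact hx
  have h3 : derivedSeries H e ≤ f.ker.subgroupOf H := by
    have h4 := map_derivedSeries_le_derivedSeries (f.subgroupMap H) e
    rw [h1, le_bot_iff] at h4
    intro x hx
    have h5 : f.subgroupMap H x = 1 := by
      have h6 : f.subgroupMap H x ∈ (derivedSeries H e).map (f.subgroupMap H) := ⟨x, hx, rfl⟩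
      rw [h4] at h6
      exact h6
    exact congrArg Subtype.val h5
  refine derived_add_bot h3 ?_
  let j : f.ker.subgroupOf H →* H.subgroupOf f.ker :=
    { toFun := fun x => ⟨⟨(x : H), x.2⟩, (x : H).2⟩
      map_one' := rfl
      map_mul' := fun _ _ => rfl }
  refine derived_of_inj j (fun x y hxy => ?_) h2
  exact Subtype.ext (Subtype.ext (congrArg (fun z : H.subgroupOf f.ker => ((z : f.ker) : G)) hxy))

end

end Pool.Agent.Lib.MP_e6f638_al
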