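import Mathlib
import Pool.Agent.Lib.MP_551055_al.Trim.X.MP_e6f638_al.Stmts

/-!
# Tits alternative for even Artin groups: condition (W) for the splitting at a generator
-/

set_option autoImplicit false

namespace Pool.Agent.Lib.MP_e6f638_al.I3
end Pool.Agent.Lib.MP_e6f638_al.I3

namespace Pool.Agent.Lib.MP_e6f638_al

open Multiplicative

namespace I3

section words

variable {G : Type} [Group G] (D : Dat G)

/-- The product of a word in the letters `t i`. -/
def tw (L : List (D.ι × ℤˣ × G)) : G :=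
  (L.map fun p => D.t p.1 ^ (p.2.1 : ℤ) * p.2.2).prod

/-- Neighbours in alternating reduced words. -/
def Alt (a b : D.ι × ℤˣ × G) : Prop :=
  b.2.1 = -a.2.1 ∧ (a.1 = b.1 → ¬ Commute a.2.2 (D.t a.1))

lemma tw_nil : tw D [] = 1 := rfl

lemma tw_cons (p : D.ι × ℤˣ × G) (L : List (D.ι × ℤˣ × G)) :
    tw D (p :: L) = D.t p.1 ^ (p.2.1 : ℤ) * p.2.2 * tw D L := by
  simp [tw]

lemma tw_append (L M : List (D.ι × ℤˣ × G)) : tw D (L ++ M) = tw D L * tw D M := by
  simp [tw]

lemma exists_list {P : D.ι → Prop} {i : D.ι} {ε σ : ℤˣ} {r : G} (h : D.Chain P i ε r σ) :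
    ∃ (L : List (D.ι × ℤˣ × G)) (k : D.ι), r = tw D L * D.t k ^ (σ : ℤ) ∧
      (∀ p ∈ L, D.l p.1 = 2 ∧ p.2.2 ∈ D.B) ∧ (L ++ [(k, σ, 1)]).IsChain (Alt D) ∧
      ∃ b M, L ++ [(k, σ, 1)] = (i, ε, b) :: M := by
  induction h with
  | base i ε _ =>
    refine ⟨[], i, ?_, ?_, ?_, 1, [], rfl⟩
    · rw [tw_nil, one_mul]
    · intro p hp
      simp at hp
    · simp
  | step i j ε b r σ hl hb hij _ ih =>
    obtain ⟨L, k, hr, hL, hc, b', M, hM⟩ := ih
    refine ⟨(i, ε, b) :: L, k, ?_, ?_, ?_, b, L ++ [(k, σ, 1)], rfl⟩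
    · rw [tw_cons, hr]
      group
    · intro p hp
      rcases List.mem_cons.1 hp with rfl | hp
      · exact ⟨hl, hb⟩
      · exact hL p hp
    · rw [List.cons_append, hM, List.isChain_cons_cons, ← hM]
      exact ⟨⟨rfl, hij⟩, hc⟩

lemma tw_eq_one {w : G →* Multiplicative ℤ} {L : List (D.ι × ℤˣ × G)}
    (h : ∀ p ∈ L, w (D.t p.1) = 1 ∧ w p.2.2 = 1) : w (tw D L) = 1 := by
  induction L with
  | nil => rw [tw_nil, map_one]
  | cons p L ih =>
    rw [tw_cons, map_mul, map_mul, map_zpow, (h p (by simp)).1, (h p (by simp)).2,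
      ih (fun q hq => h q (by simp [hq]))]
    simp

lemma tw_fix {ρ : G →* G} {L : List (D.ι × ℤˣ × G)}
    (h : ∀ p ∈ L, ρ (D.t p.1) = D.t p.1 ∧ ρ p.2.2 = p.2.2) : ρ (tw D L) = tw D L := by
  induction L with
  | nil => rw [tw_nil, map_one]
  | cons p L ih =>
    rw [tw_cons, map_mul, map_mul, map_zpow, (h p (by simp)).1, (h p (by simp)).2,
      ih (fun q hq => h q (by simp [hq]))]

end words

lemma units_ne (ε : ℤˣ) : ε ≠ -ε := by
  rcases Int.units_eq_one_or ε with h | h <;> subst h <;> decide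

lemma defects_alt (L : List ℤˣ) (h : L.IsChain (fun a b => b = -a)) : defects L = 0 := by
  induction L with
  | nil => rfl
  | cons a L ih =>
    cases L with
    | nil => rfl
    | cons b L =>
      rw [List.isChain_cons_cons] at h
      have h1 := ih h.2
      have h2 : a ≠ b := by
        rw [h.1]
        exact units_ne a
      simp only [defects, if_neg h2, h1]

end I3

open I3 in
/-- Condition (W) from the case that all letters have half label two. -/
theorem w_core (h1 : StI1) {S : Type} (l : S → S → ℕ) (hsymm : ∀ s t, l s t = l t s) (u : S)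
    (D : Dat (EA (del l u))) (hD : IsDatOf l u D)
    (star : ∀ L : List (D.ι × ℤˣ × EA (del l u)), L ≠ [] →
      (∀ p ∈ L, D.l p.1 = 2 ∧ p.2.2 ∈ D.B) → L.IsChain (Alt D) → tw D L ∉ D.B) : D.W := by
  classical
  choose s hs hls using hD.t
  have hsymm' : ∀ a b, del l u a b = del l u b a := fun a b => hsymm a b
  have hsinj : Function.Injective s := by
    intro a b hab
    apply hD.inj
    rw [hs, hs, hab]
  -- weights and retractions
  have hwt : ∀ k : D.ι, ∃ w : EA (del l u) →* Multiplicative ℤ, w (D.t k) = ofAdd 1 ∧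
      (∀ i, i ≠ k → w (D.t i) = 1) ∧ ∀ b ∈ D.B, w b = 1 := by
    intro k
    obtain ⟨w, hw⟩ := (h1 _ (del l u) hsymm').1 (fun x => if x = s k then 1 else 0)
    refine ⟨w, ?_, ?_, ?_⟩
    · rw [hs, hw, if_pos rfl]
    · intro i hi
      rw [hs, hw, if_neg (fun h => hi (hsinj h)), ofAdd_zero]
    · have h2 : D.B ≤ w.ker := by
        rw [hD.B, par, Subgroup.closure_le]
        rintro _ ⟨c, hc, rfl⟩
        have h3 : c ≠ s k := by
          rintro rfl
          have := D.two_le k
          rw [← hls k] at this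
          have h4 : l u (s k) = 1 := hc
          omega
        rw [SetLike.mem_coe, MonoidHom.mem_ker, hw, if_neg h3, ofAdd_zero]
      intro b hb
      exact h2 hb
  have hrt : ∀ k : D.ι, ∃ ρ : EA (del l u) →* EA (del l u), ρ (D.t k) = 1 ∧
      (∀ i, i ≠ k → ρ (D.t i) = D.t i) ∧ ∀ b ∈ D.B, ρ b = b := by
    intro k
    obtain ⟨ρ, hρ, hρ'⟩ := (h1 _ (del l u) hsymm').2.1 {x | x ≠ s k}
    refine ⟨ρ, ?_, ?_, ?_⟩
    · rw [hs]
      exact hρ' _ (fun h => h rfl)
    · intro i hi
      rw [hs]
      exact hρ _ (fun h => hi (hsinj h))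
    · have h2 : D.B ≤ MonoidHom.eqLocus ρ (MonoidHom.id _) := by
        rw [hD.B, par, Subgroup.closure_le]
        rintro _ ⟨c, hc, rfl⟩
        have h3 : c ≠ s k := by
          rintro rfl
          have := D.two_le k
          rw [← hls k] at this
          have h4 : l u (s k) = 1 := hc
          omega
        exact hρ c h3
      intro b hb
      exact h2 hb
  -- the general case
  intro i j ε b r hb hij hch hmem
  obtain ⟨L, k, hr, hL, hchain, b', M, hM⟩ := exists_list D hch
  have hchain' : ((i, ε, b) :: (L ++ [(k, -ε, 1)])).IsChain (Alt D) := by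
    rw [hM, List.isChain_cons_cons, ← hM]
    exact ⟨⟨rfl, hij⟩, hchain⟩
  have hwd : D.t i ^ (ε : ℤ) * b * r = tw D ((i, ε, b) :: (L ++ [(k, -ε, 1)])) := by
    rw [tw_cons, tw_append, tw_cons, tw_nil, hr]
    simp
  by_cases hi : D.l i = 2
  · by_cases hk : D.l k = 2
    · rw [hwd] at hmem
      refine star _ (by simp) ?_ hchain' hmem
      intro p hp
      rcases List.mem_cons.1 hp with rfl | hp
      · exact ⟨hi, hb⟩
      · rcases List.mem_append.1 hp with hp | hp
        · exact hL p hp
        · rw [List.mem_singleton] at hp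
          subst hp
          exact ⟨hk, one_mem _⟩
    · obtain ⟨w, hw1, hw2, hw3⟩ := hwt k
      have h2 := hw3 _ hmem
      have h3 : w (tw D L) = 1 := tw_eq_one D fun p hp => ⟨hw2 _ (by
        rintro rfl
        exact hk (hL p hp).1), hw3 _ (hL p hp).2⟩
      rw [hr, map_mul, map_mul, map_mul, map_zpow, map_zpow, hw2 i (by
        rintro rfl
        exact hk hi), hw3 b hb, h3, hw1] at h2
      rcases Int.units_eq_one_or ε with h | h <;> subst h <;> simp at h2
  · obtain ⟨w, hw1, hw2, hw3⟩ := hwt i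
    obtain ⟨ρ, hρ1, hρ2, hρ3⟩ := hrt i
    have hne : ∀ p ∈ L, p.1 ≠ i := by
      rintro p hp rfl
      exact hi (hL p hp).1
    have hki : k = i := by
      by_contra hki
      have h2 := hw3 _ hmem
      have h3 : w (tw D L) = 1 := tw_eq_one D fun p hp => ⟨hw2 _ (hne p hp), hw3 _ (hL p hp).2⟩
      rw [hr, map_mul, map_mul, map_mul, map_zpow, map_zpow, hw2 k hki, hw3 b hb, h3, hw1] at h2
      rcases Int.units_eq_one_or ε with h | h <;> subst h <;> simp at h2
    subst hki
    have h2 := hρ3 _ hmem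
    have h3 : ρ (tw D L) = tw D L := tw_fix D fun p hp => ⟨hρ2 _ (hne p hp), hρ3 _ (hL p hp).2⟩
    rw [hr, map_mul, map_mul, map_mul, map_zpow, map_zpow, hρ1, hρ3 b hb, h3, one_zpow, one_zpow,
      one_mul, mul_one] at h2
    rw [hr, ← h2] at hmem
    have h4 : tw D L ∈ D.B := by
      have := mul_mem (inv_mem hb) hmem
      rwa [inv_mul_cancel_left] at this
    by_cases hL0 : L = []
    · subst hL0
      have h5 : j = k := by
        simp only [List.nil_append, List.cons.injEq, Prod.mk.injEq] at hM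
        exact hM.1.1.symm
      refine hij h5.symm ?_
      rw [tw_nil, mul_one, one_mul] at h2
      have h6 : D.t k ^ (ε : ℤ) * b = b * D.t k ^ (ε : ℤ) := by
        have h7 : D.t k ^ ((-ε : ℤˣ) : ℤ) = (D.t k ^ (ε : ℤ))⁻¹ := by
          rw [Units.val_neg, zpow_neg]
        rw [h7] at h2
        exact (eq_mul_inv_iff_mul_eq.1 h2).symm
      rcases Int.units_eq_one_or ε with h | h
      · subst h
        simpa [Commute, SemiconjBy] using h6.symm
      · subst h
        have h8 : Commute (D.t k)⁻¹ b := by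
          simpa [Commute, SemiconjBy] using h6
        exact (Commute.inv_left_iff.1 h8).symm
    · refine star L hL0 hL ?_ h4
      exact (List.isChain_append.1 hchain).1

open I3 in
/-- Condition (W) for the splitting at `u`. -/
theorem stI3 (h1 : StI1) (hH : StH) : StI3 := by
  intro S _ l hsymm hno u D hD
  classical
  choose s hs hls using hD.t
  have hsymm' : ∀ a b, del l u a b = del l u b a := fun a b => hsymm a b
  have hsinj : Function.Injective s := by
    intro a b hab
    apply hD.inj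
    rw [hs, hs, hab]
  -- words all of whose letters have half label two
  have star : ∀ L : List (D.ι × ℤˣ × EA (del l u)), L ≠ [] →
      (∀ p ∈ L, D.l p.1 = 2 ∧ p.2.2 ∈ D.B) → L.IsChain (Alt D) → tw D L ∉ D.B := by
    intro L hL0 hL hch
    let X : Set {x : S // x ≠ u} := {x | l u x = 1 ∨ l u x = 2}
    let lX : X → X → ℕ := fun a b => del l u a b
    obtain ⟨j, hj, hjinj⟩ := (h1 _ (del l u) hsymm').2.2.2 X
    let N : Set X := {x | l u ((x : {x : S // x ≠ u}) : S) = 2}
    have hB : D.B = (par lX Nᶜ).map j := by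
      rw [hD.B, par, par, MonoidHom.map_closure]
      congr 1
      ext y
      constructor
      · rintro ⟨c, hc, rfl⟩
        have hc' : l u c = 1 := hc
        refine ⟨gen lX ⟨c, Or.inl hc'⟩, ⟨⟨c, Or.inl hc'⟩, ?_, rfl⟩, hj _⟩
        intro h2
        have h3 : l u (c : S) = 2 := h2
        omega
      · rintro ⟨_, ⟨x, hx, rfl⟩, rfl⟩
        refine ⟨x, ?_, (hj x).symm⟩
        rcases x.2 with h2 | h2
        · exact h2
        · exact absurd h2 hx
    have hβ : ∀ g : EA (del l u), g ∈ D.B → ∃ y ∈ par lX Nᶜ, j y = g := by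
      intro g hg
      rw [hB] at hg
      exact Subgroup.mem_map.1 hg
    choose! β hβ1 hβ2 using hβ
    obtain ⟨p₀, hp₀⟩ := List.exists_mem_of_ne_nil L hL0
    have hx₀ : l u (s p₀.1) = 2 := (hls _).trans (hL p₀ hp₀).1
    let F : D.ι × ℤˣ × EA (del l u) → Letter lX := fun p =>
      (if h : l u (s p.1) = 2 then ⟨s p.1, Or.inr h⟩ else ⟨s p₀.1, Or.inr hx₀⟩, p.2.1, β p.2.2)
    have hF : ∀ p, D.l p.1 = 2 → (((F p).1 : X) : {x : S // x ≠ u}) = s p.1 := by
      intro p hp
      have h2 : l u (s p.1) = 2 := (hls _).trans hp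
      simp only [F, dif_pos h2]
    have hFN : ∀ p, D.l p.1 = 2 → (F p).1 ∈ N := by
      intro p hp
      change l u (((F p).1 : X) : {x : S // x ≠ u}) = 2
      rw [hF p hp]
      exact (hls _).trans hp
    have hw : j (wprod lX (L.map F)) = tw D L := by
      unfold wprod tw
      rw [map_list_prod, List.map_map, List.map_map]
      congr 1
      refine List.map_congr_left fun p hp => ?_
      change j (gen lX (F p).1 ^ ((F p).2.1 : ℤ) * (F p).2.2) = D.t p.1 ^ (p.2.1 : ℤ) * p.2.2
      rw [map_mul, map_zpow, hj, hF p (hL p hp).1, ← hs]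
      congr 1
      exact hβ2 _ (hL p hp).2
    have hnot := hH X lX (fun a b => hsymm _ _) N ?_ ?_ (L.map F) ?_ ⟨?_, ?_⟩ ?_
    · intro hmem
      rw [hB] at hmem
      obtain ⟨y, hy, hjy⟩ := Subgroup.mem_map.1 hmem
      rw [← hw] at hjy
      rw [hjinj hjy] at hy
      exact hnot hy
    · intro a ha b hb hab h2
      have ha' : l u ((a : {x : S // x ≠ u}) : S) = 2 := ha
      have hb' : l u ((b : {x : S // x ≠ u}) : S) = 2 := hb
      refine hno u a b a.1.2.symm b.1.2.symm ?_ ⟨ha', hb', h2⟩
      intro h3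
      exact hab (Subtype.ext (Subtype.ext h3))
    · intro a ha c hc h2
      have ha' : l u ((a : {x : S // x ≠ u}) : S) = 2 := ha
      have hc' : l u ((c : {x : S // x ≠ u}) : S) = 1 := by
        rcases c.2 with h3 | h3
        · exact h3
        · exact absurd h3 hc
      refine hno a u c a.1.2 ?_ c.1.2.symm ⟨by rw [hsymm]; exact ha', h2, hc'⟩
      intro h3
      apply hc
      have h4 : a = c := Subtype.ext (Subtype.ext h3)
      rw [← h4]
      exact ha
    · simpa using hL0
    · intro q hq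
      obtain ⟨p, hp, rfl⟩ := List.mem_map.1 hq
      exact ⟨hFN p (hL p hp).1, hβ1 _ (hL p hp).2⟩
    · rw [List.isChain_map]
      refine hch.imp_of_mem_imp fun a b ha hb hab h2 h3 => ?_
      have h4 : a.1 = b.1 := by
        apply hsinj
        rw [← hF a (hL a ha).1, ← hF b (hL b hb).1, h2]
      refine fun h5 => hab.2 h4 ?_
      have h6 := h5.map j
      have h7 : j (F a).2.2 = a.2.2 := hβ2 _ (hL a ha).2
      rw [h7, hj, hF a (hL a ha).1, ← hs] at h6
      exact h6
    · have h2 : defects ((L.map F).map fun p => p.2.1) = 0 := by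
        apply defects_alt
        rw [List.map_map, List.isChain_map]
        exact hch.imp fun a b hab => hab.1
      rw [h2]
      exact Nat.zero_le _
  exact w_core h1 l hsymm u D hD star

end Pool.Agent.Lib.MP_e6f638_al
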