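import Mathlib
import Pool.Agent.Lib.MP_551055_al.Trim.X.MP_e6f638_al.Stmts

/-!
# The HNN extension with stable letter `T` and the embedding of the extension `A`
-/

set_option autoImplicit false

namespace Pool.Agent.Lib.MP_e6f638_al

open Multiplicative

namespace Dat

variable {G : Type} [Group G] (D : Dat G)

/-! ### The group `E` -/

/-- Homomorphisms on `E`. -/
noncomputable def liftE {K : Type*} [Group K] (f : D.h.ker →* K) (g : D.ι → K)
    (H : ∀ (i : D.ι) (b : D.h.ker), (b : G) ∈ D.B → Commute (b : G) (D.t i) →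
      g i * f b = f b * g i) : D.E →* K :=
  QuotientGroup.lift (Subgroup.normalClosure D.rE) (Monoid.Coprod.lift f (FreeGroup.lift g)) (by
    refine Subgroup.normalClosure_le_normal ?_
    rintro r ⟨i, b, hb, hc, rfl⟩
    simp only [SetLike.mem_coe, MonoidHom.mem_ker, map_mul, map_inv, Monoid.Coprod.lift_apply_inl,
      Monoid.Coprod.lift_apply_inr, FreeGroup.lift_apply_of]
    rw [H i b hb hc]
    group)

theorem liftE_inE {K : Type*} [Group K] (f : D.h.ker →* K) (g : D.ι → K)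
    (H : ∀ (i : D.ι) (b : D.h.ker), (b : G) ∈ D.B → Commute (b : G) (D.t i) →
      g i * f b = f b * g i) (a : D.h.ker) : D.liftE f g H (D.inE a) = f a := by
  simp [liftE, inE]

theorem liftE_z {K : Type*} [Group K] (f : D.h.ker →* K) (g : D.ι → K)
    (H : ∀ (i : D.ι) (b : D.h.ker), (b : G) ∈ D.B → Commute (b : G) (D.t i) →
      g i * f b = f b * g i) (i : D.ι) : D.liftE f g H (D.z i) = g i := by
  simp [liftE, z]

theorem E_ext {K : Type*} [Group K] {f g : D.E →* K} (h1 : ∀ a, f (D.inE a) = g (D.inE a))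
    (h2 : ∀ i, f (D.z i) = g (D.z i)) : f = g := by
  refine QuotientGroup.monoidHom_ext _ (Monoid.Coprod.hom_ext ?_ (FreeGroup.ext_hom _ _ ?_))
  · ext a
    exact h1 a
  · intro i
    exact h2 i

theorem z_comm (i : D.ι) (b : D.h.ker) (hb : (b : G) ∈ D.B) (hc : Commute (b : G) (D.t i)) :
    D.z i * D.inE b = D.inE b * D.z i := by
  have h1 : QuotientGroup.mk' (Subgroup.normalClosure D.rE)
      (Monoid.Coprod.inr (FreeGroup.of i) * Monoid.Coprod.inl b *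
      (Monoid.Coprod.inr (FreeGroup.of i))⁻¹ * (Monoid.Coprod.inl b)⁻¹) = 1 :=
    (QuotientGroup.eq_one_iff _).2 (Subgroup.subset_normalClosure ⟨i, b, hb, hc, rfl⟩)
  simp only [map_mul, map_inv] at h1
  have h2 : D.z i * D.inE b * (D.z i)⁻¹ * (D.inE b)⁻¹ = 1 := h1
  rw [mul_inv_eq_one, mul_inv_eq_iff_eq_mul] at h2
  exact h2

/-! ### The automorphism `tau` -/

/-- Conjugation on the kernel of `h`. -/
noncomputable def cj (g : G) : D.h.ker →* D.h.ker := (MulAut.conjNormal g).toMonoidHom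

theorem cj_coe (g : G) (a : D.h.ker) : (D.cj g a : G) = g * a * g⁻¹ := by
  simp [cj]

/-- `t i t₀⁻¹`. -/
def cc (i : D.ι) : D.h.ker := ⟨D.t i * D.t₀⁻¹, by
  rw [MonoidHom.mem_ker, map_mul, map_inv, D.h_t, D.h_t₀, mul_inv_cancel]⟩

/-- `t₀⁻¹ t i`. -/
def cd (i : D.ι) : D.h.ker := ⟨D.t₀⁻¹ * D.t i, by
  rw [MonoidHom.mem_ker, map_mul, map_inv, D.h_t, D.h_t₀, inv_mul_cancel]⟩

theorem cj_comm (i : D.ι) (b : D.h.ker) (hc : Commute (b : G) (D.t i)) :
    D.cj D.t₀ b = (D.cc i)⁻¹ * b * D.cc i := by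
  apply Subtype.ext
  rw [cj_coe]
  simp only [Subgroup.coe_mul, Subgroup.coe_inv, cc]
  have h1 : (D.t i)⁻¹ * (b : G) * D.t i = b := by
    rw [mul_assoc, hc.eq, ← mul_assoc, inv_mul_cancel, one_mul]
  calc D.t₀ * (b : G) * D.t₀⁻¹ = D.t₀ * ((D.t i)⁻¹ * (b : G) * D.t i) * D.t₀⁻¹ := by rw [h1]
    _ = _ := by group

theorem cj_comm' (i : D.ι) (b : D.h.ker) (hc : Commute (b : G) (D.t i)) :
    D.cj D.t₀⁻¹ b = D.cd i * b * (D.cd i)⁻¹ := by
  apply Subtype.ext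
  rw [cj_coe]
  simp only [Subgroup.coe_mul, Subgroup.coe_inv, cd]
  have h1 : D.t i * (b : G) * (D.t i)⁻¹ = b := by
    rw [← hc.eq, mul_assoc, mul_inv_cancel, mul_one]
  calc D.t₀⁻¹ * (b : G) * (D.t₀⁻¹)⁻¹ = D.t₀⁻¹ * (D.t i * (b : G) * (D.t i)⁻¹) * D.t₀ := by
        rw [h1, inv_inv]
    _ = _ := by group

/-- The endomorphism `tau` of `E`. -/
noncomputable def tauE : D.E →* D.E :=
  D.liftE (D.inE.comp (D.cj D.t₀)) (fun i => (D.inE (D.cc i))⁻¹ * D.z i * D.inE (D.cc i)) (by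
    intro i b hb hc
    rw [MonoidHom.comp_apply, D.cj_comm i b hc]
    simp only [map_mul, map_inv]
    have := D.z_comm i b hb hc
    calc (D.inE (D.cc i))⁻¹ * D.z i * D.inE (D.cc i) *
          ((D.inE (D.cc i))⁻¹ * D.inE b * D.inE (D.cc i))
        = (D.inE (D.cc i))⁻¹ * (D.z i * D.inE b) * D.inE (D.cc i) := by group
      _ = (D.inE (D.cc i))⁻¹ * (D.inE b * D.z i) * D.inE (D.cc i) := by rw [this]
      _ = _ := by group)

/-- The inverse of `tau`. -/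
noncomputable def tauE' : D.E →* D.E :=
  D.liftE (D.inE.comp (D.cj D.t₀⁻¹)) (fun i => D.inE (D.cd i) * D.z i * (D.inE (D.cd i))⁻¹) (by
    intro i b hb hc
    rw [MonoidHom.comp_apply, D.cj_comm' i b hc]
    simp only [map_mul, map_inv]
    have := D.z_comm i b hb hc
    calc D.inE (D.cd i) * D.z i * (D.inE (D.cd i))⁻¹ *
          (D.inE (D.cd i) * D.inE b * (D.inE (D.cd i))⁻¹)
        = D.inE (D.cd i) * (D.z i * D.inE b) * (D.inE (D.cd i))⁻¹ := by group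
      _ = D.inE (D.cd i) * (D.inE b * D.z i) * (D.inE (D.cd i))⁻¹ := by rw [this]
      _ = _ := by group)

theorem tauE_inE (a : D.h.ker) : D.tauE (D.inE a) = D.inE (D.cj D.t₀ a) := D.liftE_inE _ _ _ a

theorem tauE_z (i : D.ι) : D.tauE (D.z i) = (D.inE (D.cc i))⁻¹ * D.z i * D.inE (D.cc i) :=
  D.liftE_z _ _ _ i

theorem tauE'_inE (a : D.h.ker) : D.tauE' (D.inE a) = D.inE (D.cj D.t₀⁻¹ a) :=
  D.liftE_inE _ _ _ a

theorem tauE'_z (i : D.ι) : D.tauE' (D.z i) = D.inE (D.cd i) * D.z i * (D.inE (D.cd i))⁻¹ :=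
  D.liftE_z _ _ _ i

theorem cj_cd (i : D.ι) : D.cj D.t₀ (D.cd i) = D.cc i := by
  apply Subtype.ext
  rw [cj_coe]
  simp only [cc, cd]
  group

theorem cj_cc (i : D.ι) : D.cj D.t₀⁻¹ (D.cc i) = D.cd i := by
  apply Subtype.ext
  rw [cj_coe]
  simp only [cc, cd]
  group

theorem cj_cj (g : G) (a : D.h.ker) : D.cj g (D.cj g⁻¹ a) = a := by
  apply Subtype.ext
  rw [cj_coe, cj_coe]
  group

theorem cj_cj' (g : G) (a : D.h.ker) : D.cj g⁻¹ (D.cj g a) = a := by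
  apply Subtype.ext
  rw [cj_coe, cj_coe]
  group

theorem tau_tau' : D.tauE.comp D.tauE' = MonoidHom.id _ := by
  refine D.E_ext ?_ ?_
  · intro a
    rw [MonoidHom.comp_apply, tauE'_inE, tauE_inE, cj_cj, MonoidHom.id_apply]
  · intro i
    rw [MonoidHom.comp_apply, tauE'_z, map_mul, map_mul, map_inv, tauE_inE, tauE_z, cj_cd,
      MonoidHom.id_apply]
    group

theorem tau'_tau : D.tauE'.comp D.tauE = MonoidHom.id _ := by
  refine D.E_ext ?_ ?_
  · intro a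
    rw [MonoidHom.comp_apply, tauE_inE, tauE'_inE, cj_cj', MonoidHom.id_apply]
  · intro i
    rw [MonoidHom.comp_apply, tauE_z, map_mul, map_mul, map_inv, tauE'_inE, tauE'_z, cj_cc,
      MonoidHom.id_apply]
    group

/-- The automorphism `tau` of `E`. -/
noncomputable def tauEq : D.E ≃* D.E :=
  MonoidHom.toMulEquiv D.tauE D.tauE' D.tau'_tau D.tau_tau'

theorem tauEq_apply (e : D.E) : D.tauEq e = D.tauE e := rfl

/-! ### The HNN extension -/

theorem hh_of (g : G) : D.hh (D.ofG g) = D.h g := by simp [hh]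

theorem hh_u : D.hh D.u = ofAdd (-1) := by simp [hh]

theorem hh_x : D.hh D.x = 1 := by
  rw [x, map_mul, hh_of, hh_u, D.h_t₀, ← ofAdd_add]
  simp

theorem phi_mem {φ : D.E →* D.Ah} (hφ : D.IsPhi φ) (e : D.E) : φ e ∈ D.hh.ker := by
  have h1 : D.hh.comp φ = 1 := by
    refine D.E_ext ?_ ?_
    · intro a
      rw [MonoidHom.comp_apply, hφ.1, hh_of, a.2]
      rfl
    · intro i
      rw [MonoidHom.comp_apply, hφ.2, map_pow, map_mul, hh_of, hh_u, D.h_t, ← ofAdd_add]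
      simp
  rw [MonoidHom.mem_ker, ← MonoidHom.comp_apply, h1, MonoidHom.one_apply]

theorem phi_unique {φ φ' : D.E →* D.Ah} (hφ : D.IsPhi φ) (hφ' : D.IsPhi φ') : φ = φ' :=
  D.E_ext (fun a => by rw [hφ.1, hφ'.1]) (fun i => by rw [hφ.2, hφ'.2])

/-- `φ` with values in the kernel of `hh`. -/
noncomputable def phiQ {φ : D.E →* D.Ah} (hφ : D.IsPhi φ) : D.E →* D.hh.ker :=
  φ.codRestrict D.hh.ker (D.phi_mem hφ)

theorem phiQ_coe {φ : D.E →* D.Ah} (hφ : D.IsPhi φ) (e : D.E) : (D.phiQ hφ e : D.Ah) = φ e := rfl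

theorem phiQ_inj {φ : D.E →* D.Ah} (hφ : D.IsPhi φ) (hinj : Function.Injective φ) :
    Function.Injective (D.phiQ hφ) := by
  intro a b h
  exact hinj (congrArg Subtype.val h)

theorem mem_range_phiQ {φ : D.E →* D.Ah} (hφ : D.IsPhi φ) (q : D.hh.ker) :
    q ∈ (D.phiQ hφ).range ↔ (q : D.Ah) ∈ φ.range := by
  constructor
  · rintro ⟨e, rfl⟩
    exact ⟨e, rfl⟩
  · rintro ⟨e, he⟩
    exact ⟨e, Subtype.ext he⟩

/-- `tau` on the range. -/
noncomputable def tauQ {φ : D.E →* D.Ah} (hφ : D.IsPhi φ) (hinj : Function.Injective φ) :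
    (D.phiQ hφ).range ≃* (D.phiQ hφ).range :=
  (MonoidHom.ofInjective (D.phiQ_inj hφ hinj)).symm.trans
    (D.tauEq.trans (MonoidHom.ofInjective (D.phiQ_inj hφ hinj)))

theorem tauQ_apply {φ : D.E →* D.Ah} (hφ : D.IsPhi φ) (hinj : Function.Injective φ) (e : D.E) :
    D.tauQ hφ hinj ⟨D.phiQ hφ e, ⟨e, rfl⟩⟩ = ⟨D.phiQ hφ (D.tauE e), ⟨_, rfl⟩⟩ := by
  have h1 : (MonoidHom.ofInjective (D.phiQ_inj hφ hinj)).symm ⟨D.phiQ hφ e, ⟨e, rfl⟩⟩ = e := by
    rw [MulEquiv.symm_apply_eq]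
    rfl
  simp only [tauQ, MulEquiv.trans_apply, h1, tauEq_apply]
  rfl

/-- The HNN extension `Omega`. -/
abbrev Om {φ : D.E →* D.Ah} (hφ : D.IsPhi φ) (hinj : Function.Injective φ) : Type :=
  HNNExtension D.hh.ker (D.phiQ hφ).range (D.phiQ hφ).range (D.tauQ hφ hinj)

section

variable {φ : D.E →* D.Ah} (hφ : D.IsPhi φ) (hinj : Function.Injective φ)

/-- The stable letter of `Omega`. -/
noncomputable abbrev T : D.Om hφ hinj := HNNExtension.t

/-- The base group in `Omega`. -/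
noncomputable abbrev oQ : D.hh.ker →* D.Om hφ hinj := HNNExtension.of

theorem T_mul (e : D.E) : D.T hφ hinj * D.oQ hφ hinj (D.phiQ hφ e) =
    D.oQ hφ hinj (D.phiQ hφ (D.tauE e)) * D.T hφ hinj := by
  have h1 := HNNExtension.t_mul_of (φ := D.tauQ hφ hinj) ⟨D.phiQ hφ e, ⟨e, rfl⟩⟩
  rw [tauQ_apply] at h1
  exact h1

/-- The kernel of `h` in `Q`. -/
noncomputable def kQ : D.h.ker →* D.hh.ker := (D.phiQ hφ).comp D.inE

theorem kQ_coe (a : D.h.ker) : (D.kQ hφ a : D.Ah) = D.ofG a := hφ.1 a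

theorem conj_T (a : D.h.ker) : MulAut.conj (D.T hφ hinj) (D.oQ hφ hinj (D.kQ hφ a)) =
    D.oQ hφ hinj (D.kQ hφ (MulAut.conjNormal D.t₀ a)) := by
  have h1 := D.T_mul hφ hinj (D.inE a)
  rw [tauE_inE] at h1
  rw [MulAut.conj_apply, mul_inv_eq_iff_eq_mul]
  exact h1

theorem conj_T_inv (a : D.h.ker) : (MulAut.conj (D.T hφ hinj))⁻¹ (D.oQ hφ hinj (D.kQ hφ a)) =
    D.oQ hφ hinj (D.kQ hφ ((MulAut.conjNormal D.t₀)⁻¹ a)) := by
  rw [MulAut.inv_apply, MulEquiv.symm_apply_eq, conj_T, ← MulAut.mul_apply, mul_inv_cancel,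
    MulAut.one_apply]

theorem conj_T_zpow (n : ℤ) (a : D.h.ker) :
    (MulAut.conj (D.T hφ hinj) ^ n) (D.oQ hφ hinj (D.kQ hφ a)) =
    D.oQ hφ hinj (D.kQ hφ ((MulAut.conjNormal D.t₀ ^ n) a)) := by
  induction n using Int.induction_on with
  | zero => simp
  | succ n ih =>
    rw [zpow_add_one, zpow_add_one, (Commute.refl _).zpow_left n |>.eq,
      (Commute.refl _).zpow_left n |>.eq, MulAut.mul_apply, ih, conj_T, ← MulAut.mul_apply]
  | pred n ih =>
    rw [zpow_sub_one, zpow_sub_one, ((Commute.refl _).zpow_left _).inv_right.eq,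
      ((Commute.refl _).zpow_left _).inv_right.eq, MulAut.mul_apply, ih, conj_T_inv,
      ← MulAut.mul_apply]

/-- Powers of `T` act on the kernel of `h` like powers of `t₀`. -/
theorem T_zpow_mul (n : ℤ) (a : D.h.ker) :
    D.T hφ hinj ^ n * D.oQ hφ hinj (D.kQ hφ a) =
      D.oQ hφ hinj (D.kQ hφ (MulAut.conjNormal (D.t₀ ^ n) a)) * D.T hφ hinj ^ n := by
  have h1 := D.conj_T_zpow hφ hinj n a
  rw [← map_zpow, ← map_zpow, MulAut.conj_apply, mul_inv_eq_iff_eq_mul] at h1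
  exact h1

/-- The part of `g` in the kernel of `h`. -/
def kp (g : G) : D.h.ker := ⟨g * D.t₀ ^ (-toAdd (D.h g)), by
  rw [MonoidHom.mem_ker, map_mul, map_zpow, D.h_t₀, ← ofAdd_zsmul]
  simp⟩

theorem kp_mul (g g' : G) : D.kp (g * g') =
    D.kp g * MulAut.conjNormal (D.t₀ ^ toAdd (D.h g)) (D.kp g') := by
  apply Subtype.ext
  simp only [kp, Subgroup.coe_mul, MulAut.conjNormal_apply, map_mul, toAdd_mul, neg_add, zpow_add]
  group

/-- The map of `G` into `Omega`. -/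
noncomputable def psiG : G →* D.Om hφ hinj :=
  MonoidHom.mk' (fun g => D.oQ hφ hinj (D.kQ hφ (D.kp g)) * D.T hφ hinj ^ toAdd (D.h g)) (by
    intro g g'
    rw [kp_mul, map_mul, map_mul, map_mul, toAdd_mul, zpow_add]
    have h1 := D.T_zpow_mul hφ hinj (toAdd (D.h g)) (D.kp g')
    calc D.oQ hφ hinj (D.kQ hφ (D.kp g)) *
          D.oQ hφ hinj (D.kQ hφ (MulAut.conjNormal (D.t₀ ^ toAdd (D.h g)) (D.kp g'))) *
          (D.T hφ hinj ^ toAdd (D.h g) * D.T hφ hinj ^ toAdd (D.h g'))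
        = D.oQ hφ hinj (D.kQ hφ (D.kp g)) *
          (D.oQ hφ hinj (D.kQ hφ (MulAut.conjNormal (D.t₀ ^ toAdd (D.h g)) (D.kp g'))) *
          D.T hφ hinj ^ toAdd (D.h g)) * D.T hφ hinj ^ toAdd (D.h g') := by group
      _ = _ := by rw [← h1]; group)

theorem psiG_apply (g : G) : D.psiG hφ hinj g =
    D.oQ hφ hinj (D.kQ hφ (D.kp g)) * D.T hφ hinj ^ toAdd (D.h g) := rfl

/-- `x` in `Q`. -/
noncomputable def xQ : D.hh.ker := ⟨D.x, D.hh_x⟩

/-- The image of the new generator. -/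
noncomputable def psiv : D.Om hφ hinj := (D.T hφ hinj)⁻¹ * D.oQ hφ hinj D.xQ

theorem kp_of_one {b : G} (hb : D.h b = 1) : D.kp b = ⟨b, hb⟩ := by
  apply Subtype.ext
  simp [kp, hb]

theorem psiG_of_one {b : G} (hb : D.h b = 1) : D.psiG hφ hinj b =
    D.oQ hφ hinj (D.kQ hφ ⟨b, hb⟩) := by
  rw [psiG_apply, kp_of_one D hb, hb]
  simp

theorem psiG_t₀ : D.psiG hφ hinj D.t₀ = D.T hφ hinj := by
  rw [psiG_apply]
  have h1 : D.kp D.t₀ = 1 := by
    apply Subtype.ext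
    simp [kp, D.h_t₀]
  rw [h1, map_one, map_one, one_mul, D.h_t₀]
  simp

theorem psiG_t (k : D.ι) : D.psiG hφ hinj (D.t k) =
    D.oQ hφ hinj (D.kQ hφ (D.cc k)) * D.T hφ hinj := by
  rw [psiG_apply]
  have h1 : D.kp (D.t k) = D.cc k := by
    apply Subtype.ext
    simp [kp, cc, D.h_t]
  rw [h1, D.h_t]
  simp

theorem psi_comm (b : G) (hb : b ∈ D.B) : D.psiG hφ hinj b * D.psiv hφ hinj =
    D.psiv hφ hinj * D.psiG hφ hinj b := by
  have hb1 := D.h_B b hb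
  rw [psiG_of_one D hφ hinj hb1]
  simp only [psiv]
  have h1 := D.T_zpow_mul hφ hinj 1 ⟨b, hb1⟩
  simp only [zpow_one] at h1
  have h2 : D.oQ hφ hinj (D.kQ hφ ⟨b, hb1⟩) * (D.T hφ hinj)⁻¹ = (D.T hφ hinj)⁻¹ *
      D.oQ hφ hinj (D.kQ hφ (MulAut.conjNormal D.t₀ ⟨b, hb1⟩)) := by
    rw [mul_inv_eq_iff_eq_mul, mul_assoc, ← h1, ← mul_assoc, inv_mul_cancel, one_mul]
  have h3 : D.kQ hφ (MulAut.conjNormal D.t₀ ⟨b, hb1⟩) * D.xQ = D.xQ * D.kQ hφ ⟨b, hb1⟩ := by
    apply Subtype.ext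
    simp only [Subgroup.coe_mul, kQ_coe, xQ, x, MulAut.conjNormal_apply, map_mul, map_inv]
    have h4 : D.ofG b * D.u = D.u * D.ofG b := by
      have := HNNExtension.t_mul_of (φ := MulEquiv.refl D.B) ⟨b, hb⟩
      exact this.symm
    calc D.ofG D.t₀ * D.ofG b * (D.ofG D.t₀)⁻¹ * (D.ofG D.t₀ * D.u)
        = D.ofG D.t₀ * (D.ofG b * D.u) := by group
      _ = D.ofG D.t₀ * D.u * D.ofG b := by rw [h4]; group
  rw [← mul_assoc, h2, mul_assoc, ← map_mul, h3, map_mul, mul_assoc]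

theorem psi_tv (k : D.ι) : D.psiG hφ hinj (D.t k) * D.psiv hφ hinj =
    D.oQ hφ hinj (D.kQ hφ (D.cc k) * D.xQ) := by
  rw [psiG_t, psiv, map_mul]
  group

theorem psi_pow (k : D.ι) : (D.psiG hφ hinj (D.t k) * D.psiv hφ hinj) ^ D.l k =
    D.oQ hφ hinj (D.phiQ hφ (D.z k)) := by
  rw [psi_tv, ← map_pow]
  congr 1
  apply Subtype.ext
  rw [phiQ_coe, hφ.2, Subgroup.coe_pow, Subgroup.coe_mul, kQ_coe]
  congr 1
  simp only [cc, xQ, x, map_mul, map_inv]
  group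

theorem psi_rel (k : D.ι) :
    (D.psiG hφ hinj (D.t k) * D.psiv hφ hinj) ^ D.l k * D.psiG hφ hinj (D.t k) =
    D.psiG hφ hinj (D.t k) * (D.psiG hφ hinj (D.t k) * D.psiv hφ hinj) ^ D.l k := by
  rw [psi_pow, psiG_t]
  have h1 := D.T_mul hφ hinj (D.z k)
  rw [tauE_z] at h1
  rw [mul_assoc _ (D.T hφ hinj), h1]
  simp only [map_mul, map_inv]
  have h2 : D.kQ hφ (D.cc k) = D.phiQ hφ (D.inE (D.cc k)) := rfl
  rw [h2]
  group

/-! ### The left inverse -/

variable {A : Type} [Group A] {i : G →* A} {v : A} (hA : D.IsExt A i v)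

/-- The map of `Ah` to `A`. -/
noncomputable def toA : D.Ah →* A := HNNExtension.lift i v (fun a => by
  rw [MulEquiv.refl_apply, hA.comm a a.2])

theorem toA_of (g : G) : D.toA hA (D.ofG g) = i g := by simp [toA]

theorem toA_u : D.toA hA D.u = v := by simp [toA]

theorem toA_x : D.toA hA D.x = i D.t₀ * v := by rw [x, map_mul, toA_of, toA_u]

include hφ in
theorem toA_tau (e : D.E) : i D.t₀ * D.toA hA (φ e) = D.toA hA (φ (D.tauE e)) * i D.t₀ := by
  have h1 : (MulAut.conj (i D.t₀)).toMonoidHom.comp ((D.toA hA).comp φ) =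
      ((D.toA hA).comp φ).comp D.tauE := by
    refine D.E_ext ?_ ?_
    · intro a
      simp only [MonoidHom.comp_apply, tauE_inE, hφ.1, toA_of, cj_coe]
      simp
    · intro k
      have hz : D.toA hA (φ (D.z k)) = (i (D.t k) * v) ^ D.l k := by
        rw [hφ.2, map_pow, map_mul, toA_of, toA_u]
      have hc : D.toA hA (φ (D.inE (D.cc k))) = i (D.cc k) := by rw [hφ.1, toA_of]
      simp only [MonoidHom.comp_apply, tauE_z, map_mul, map_inv, hc, hz]
      have h2 := hA.rel k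
      generalize (i (D.t k) * v) ^ D.l k = Z at h2 ⊢
      have h3 : i D.t₀ = (i ↑(D.cc k))⁻¹ * i (D.t k) := by
        rw [← map_inv, ← map_mul]
        congr 1
        simp only [cc]
        group
      have h4 : (MulAut.conj (i D.t₀)).toMonoidHom Z = i D.t₀ * Z * (i D.t₀)⁻¹ := rfl
      rw [h4, h3]
      calc (i ↑(D.cc k))⁻¹ * i (D.t k) * Z * ((i ↑(D.cc k))⁻¹ * i (D.t k))⁻¹
          = (i ↑(D.cc k))⁻¹ * (i (D.t k) * Z) * (i (D.t k))⁻¹ * i ↑(D.cc k) := by group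
        _ = (i ↑(D.cc k))⁻¹ * Z * i ↑(D.cc k) := by rw [← h2]; group
  have h5 := DFunLike.congr_fun h1 e
  have h6 : i D.t₀ * D.toA hA (φ e) * (i D.t₀)⁻¹ = D.toA hA (φ (D.tauE e)) := h5
  rw [← h6]
  group

/-- The left inverse of `psi`. -/
noncomputable def lam : D.Om hφ hinj →* A :=
  HNNExtension.lift ((D.toA hA).comp D.hh.ker.subtype) (i D.t₀) (by
    rintro ⟨_, e, rfl⟩
    rw [tauQ_apply]
    exact D.toA_tau hφ hA e)

theorem lam_T : D.lam hφ hinj hA (D.T hφ hinj) = i D.t₀ := by simp [lam]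

theorem lam_oQ (q : D.hh.ker) : D.lam hφ hinj hA (D.oQ hφ hinj q) = D.toA hA q := by simp [lam]

include hA in
/-- The embedding of `A` in `Omega`. -/
theorem exists_psi : ∃ ψ : A →* D.Om hφ hinj, ψ.comp i = D.psiG hφ hinj ∧
    ψ v = D.psiv hφ hinj ∧ Function.Injective ψ := by
  obtain ⟨ψ, h1, h2⟩ := hA.lift (D.Om hφ hinj) (D.psiG hφ hinj) (D.psiv hφ hinj)
    (fun b hb => D.psi_comm hφ hinj b hb) (fun k => D.psi_rel hφ hinj k)
  refine ⟨ψ, h1, h2, ?_⟩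
  have h3 : (D.lam hφ hinj hA).comp ψ = MonoidHom.id A := by
    refine MonoidHom.eq_of_eqOn_dense hA.gen ?_
    rintro a (⟨g, rfl⟩ | rfl)
    · rw [MonoidHom.comp_apply, MonoidHom.id_apply]
      have h4 : ψ (i g) = D.psiG hφ hinj g := DFunLike.congr_fun h1 g
      rw [h4, psiG_apply, map_mul, map_zpow, lam_T, lam_oQ, kQ_coe, toA_of, ← map_zpow, ← map_mul]
      congr 1
      simp only [kp]
      group
    · rw [MonoidHom.comp_apply, MonoidHom.id_apply, h2, psiv, map_mul, map_inv, lam_T, lam_oQ]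
      simp only [xQ]
      rw [toA_x]
      group
  intro a b hab
  have h4 := DFunLike.congr_fun h3 a
  have h5 := DFunLike.congr_fun h3 b
  rw [MonoidHom.comp_apply, MonoidHom.id_apply] at h4 h5
  rw [← h4, ← h5, hab]

end

end Dat

end Pool.Agent.Lib.MP_e6f638_al
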