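import Mathlib
import Pool.Agent.Lib.MP_551055_al.Trim.X.MP_e6f638_al.GDefs
import Pool.Agent.Lib.MP_551055_al.Trim.X.MP_e6f638_al.Stmts

/-!
# Module G2
-/

set_option autoImplicit false

namespace Pool.Agent.Lib.MP_e6f638_al

open Multiplicative HNNExtension HNNExtension.NormalWord

namespace Dat

variable {G : Type} [Group G] (D : Dat G)

section

variable {φ : D.E →* D.Ah} (hφ : D.IsPhi φ) (hinj : Function.Injective φ)

/-- Reduced words of `Omega`. -/
abbrev RW : Type := ReducedWord D.hh.ker (D.phiQ hφ).range (D.phiQ hφ).range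

theorem toSub (u : ℤˣ) :
    toSubgroup (D.phiQ hφ).range (D.phiQ hφ).range u = (D.phiQ hφ).range := by
  unfold toSubgroup
  split_ifs <;> rfl

/-- Multiplication by powers of `T`. -/
theorem exists_tpow (w : D.RW hφ) (u : ℤˣ)
    (hw : w.head ∉ (D.phiQ hφ).range ∨ w.toList = []) (m : ℕ) :
    ∃ w2 : D.RW hφ, w2.head = 1 ∧
      w2.prod (D.tauQ hφ hinj) = D.T hφ hinj ^ ((u : ℤ) * ((m : ℤ) + 1)) *
        w.prod (D.tauQ hφ hinj) ∧ w2.toList ≠ [] ∧ ∀ a ∈ w2.toList.head?, a.1 = u := by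
  induction m with
  | zero =>
    refine ⟨⟨1, (u, w.head) :: w.toList, ?_⟩, rfl, ?_, by simp, ?_⟩
    · rcases hw with hw | hw
      · refine List.isChain_cons.2 ⟨?_, w.chain⟩
        intro b _ hb
        rw [toSub] at hb
        exact absurd hb hw
      · rw [hw]
        exact List.isChain_singleton _
    · simp only [ReducedWord.prod, map_one, one_mul, List.map_cons, List.prod_cons,
        Nat.cast_zero, zero_add, mul_one, mul_assoc]
    · intro a ha
      simp only [List.head?_cons, Option.mem_def, Option.some.injEq] at ha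
      rw [← ha]
  | succ m ih =>
    obtain ⟨w2, h1, h2, h3, h4⟩ := ih
    refine ⟨⟨1, (u, 1) :: w2.toList, ?_⟩, rfl, ?_, by simp, ?_⟩
    · refine List.isChain_cons.2 ⟨?_, w2.chain⟩
      intro b hb _
      exact (h4 b hb).symm
    · have h5 : w2.prod (D.tauQ hφ hinj) =
          (w2.toList.map (fun x => D.T hφ hinj ^ (x.1 : ℤ) * D.oQ hφ hinj x.2)).prod := by
        simp only [ReducedWord.prod, h1, map_one, one_mul]
      simp only [ReducedWord.prod, map_one, one_mul, List.map_cons, List.prod_cons, mul_one]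
      have h6 : (w2.toList.map (fun x => (HNNExtension.t : D.Om hφ hinj) ^ (x.1 : ℤ) * of x.2)).prod =
          D.T hφ hinj ^ ((u : ℤ) * ((m : ℤ) + 1)) * w.prod (D.tauQ hφ hinj) := by
        rw [← h2, h5]
      rw [h6, ← mul_assoc, ← zpow_add]
      simp only [ReducedWord.prod]
      congr 2
      push_cast
      ring
    · intro a ha
      simp only [List.head?_cons, Option.mem_def, Option.some.injEq] at ha
      rw [← ha]

/-- The condition on a list of letters. -/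
def CL (φ : D.E →* D.Ah) (L : List (ℤˣ × G)) : Prop :=
  ∀ (L₁ R₀ : List (ℤˣ × G)) (δ : ℤˣ) (κ : G) (L₂ : List (ℤˣ × G)),
    L = L₁ ++ R₀ ++ (δ, κ) :: L₂ → (∀ p ∈ R₀, D.h p.2 = 1) →
    D.xw R₀ * D.x ^ (δ : ℤ) ∉ φ.range

theorem CL.tail {φ : D.E →* D.Ah} {p : ℤˣ × G} {L : List (ℤˣ × G)} (h : D.CL φ (p :: L)) :
    D.CL φ L := by
  intro L₁ R₀ δ κ L₂ hL hR
  exact h (p :: L₁) R₀ δ κ L₂ (by rw [hL]; simp) hR

theorem CL.head {φ : D.E →* D.Ah} (hφ : D.IsPhi φ) {L : List (ℤˣ × G)} (h : D.CL φ L)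
    {R₀ : List (ℤˣ × G)} {δ : ℤˣ} {κ : G} {L₂ : List (ℤˣ × G)} (κ' : D.h.ker)
    (hL : L = R₀ ++ (δ, κ) :: L₂) (hR : ∀ p ∈ R₀, D.h p.2 = 1) {q : D.hh.ker}
    (hq : (q : D.Ah) = D.xw R₀ * D.x ^ (δ : ℤ) * D.ofG κ') : q ∉ (D.phiQ hφ).range := by
  have hz : φ (D.inE κ') ∈ φ.range := ⟨_, rfl⟩
  rw [mem_range_phiQ, hq, ← hφ.1 κ', mul_mem_cancel_right hz]
  exact h [] R₀ δ κ L₂ (by rw [hL]; simp) hR

/-- The reduced word of a list. -/
theorem exists_wordG (L : List (ℤˣ × G)) (hL : D.CL φ L) :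
    ∃ w : D.RW hφ, w.prod (D.tauQ hφ hinj) =
      (L.map fun p => D.oQ hφ hinj D.xQ ^ (p.1 : ℤ) * D.psiG hφ hinj p.2).prod ∧
      ((L = [] ∧ w.head = 1 ∧ w.toList = []) ∨
        ∃ (R₀ : List (ℤˣ × G)) (δ : ℤˣ) (κ : G) (L₂ : List (ℤˣ × G)) (κ' : D.h.ker),
          L = R₀ ++ (δ, κ) :: L₂ ∧ (∀ p ∈ R₀, D.h p.2 = 1) ∧
          (w.head : D.Ah) = D.xw R₀ * D.x ^ (δ : ℤ) * D.ofG κ') := by
  induction L with
  | nil =>
    refine ⟨⟨1, [], List.isChain_nil⟩, ?_, Or.inl ⟨rfl, rfl, rfl⟩⟩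
    simp [ReducedWord.prod]
  | cons p L ih =>
    obtain ⟨δ, κ⟩ := p
    obtain ⟨w, h1, h2⟩ := ih (CL.tail D hL)
    have hhead : w.head ∉ (D.phiQ hφ).range ∨ w.toList = [] := by
      rcases h2 with h2 | ⟨R₀, δ', κ₁, L₂, κ', h3, h4, h5⟩
      · exact Or.inr h2.2.2
      · exact Or.inl (CL.head D hφ (CL.tail D hL) κ' h3 h4 h5)
    rw [List.map_cons, List.prod_cons, ← h1, psiG_apply]
    by_cases hn : toAdd (D.h κ) = 0
    · have hκ : D.h κ = 1 := by
        rw [← ofAdd_toAdd (D.h κ), hn]; rfl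
      refine ⟨⟨D.xQ ^ (δ : ℤ) * D.kQ hφ (D.kp κ) * w.head, w.toList, w.chain⟩, ?_, Or.inr ?_⟩
      · simp only [ReducedWord.prod, map_mul, map_zpow, hn, zpow_zero, mul_one, mul_assoc]
      · rcases h2 with h2 | ⟨R₀, δ', κ₁, L₂, κ', h3, h4, h5⟩
        · refine ⟨[], δ, κ, L, D.kp κ, by simp, by simp, ?_⟩
          simp only [Subgroup.coe_mul, Subgroup.coe_zpow, kQ_coe, h2.2.1,
            mul_one, xw, List.map_nil, List.prod_nil, one_mul, xQ]
        · refine ⟨(δ, κ) :: R₀, δ', κ₁, L₂, κ', by rw [h3]; simp, ?_, ?_⟩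
          · intro p hp
            rcases List.mem_cons.1 hp with rfl | hp
            · exact hκ
            · exact h4 p hp
          · simp only [Subgroup.coe_mul, Subgroup.coe_zpow, kQ_coe, h5, xw, List.map_cons,
              List.prod_cons, xQ, kp_of_one D hκ, mul_assoc]
    · obtain ⟨u, m, hum⟩ : ∃ (u : ℤˣ) (m : ℕ), toAdd (D.h κ) = (u : ℤ) * ((m : ℤ) + 1) := by
        rcases lt_or_gt_of_ne hn with h | h
        · refine ⟨-1, (toAdd (D.h κ)).natAbs - 1, ?_⟩
          simp only [Units.val_neg, Units.val_one]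
          omega
        · refine ⟨1, (toAdd (D.h κ)).natAbs - 1, ?_⟩
          simp only [Units.val_one]
          omega
      obtain ⟨w2, g1, g2, g3, g4⟩ := D.exists_tpow hφ hinj w u hhead m
      refine ⟨⟨D.xQ ^ (δ : ℤ) * D.kQ hφ (D.kp κ), w2.toList, w2.chain⟩, ?_, Or.inr ?_⟩
      · rw [hum, mul_assoc, mul_assoc, ← g2]
        simp only [ReducedWord.prod, g1, map_one, one_mul, map_mul, map_zpow, mul_assoc]
      · refine ⟨[], δ, κ, L, D.kp κ, by simp, by simp, ?_⟩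
        simp only [Subgroup.coe_mul, Subgroup.coe_zpow, kQ_coe, xw, List.map_nil, List.prod_nil,
          one_mul, xQ]

/-- Such a word is not in the image of `G`. -/
theorem word_ne (L : List (ℤˣ × G)) (hne : L ≠ []) (hL : D.CL φ L) (g : G) :
    (L.map fun p => D.oQ hφ hinj D.xQ ^ (p.1 : ℤ) * D.psiG hφ hinj p.2).prod ≠
      D.psiG hφ hinj g := by
  intro heq
  obtain ⟨w, h1, h2⟩ := D.exists_wordG hφ hinj L hL
  rcases h2 with h2 | ⟨R₀, δ', κ₁, L₂, κ', h3, h4, h5⟩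
  · exact hne h2.1
  · have hq := CL.head D hφ hL κ' h3 h4 h5
    rw [heq, psiG_apply] at h1
    have hk : D.kQ hφ (D.kp g) ∈ (D.phiQ hφ).range := ⟨D.inE (D.kp g), rfl⟩
    by_cases hn : toAdd (D.h g) = 0
    · rw [hn, zpow_zero, mul_one] at h1
      have h6 := ReducedWord.toList_eq_nil_of_mem_of_range (D.tauQ hφ hinj) w
        (by rw [h1]; exact ⟨_, rfl⟩)
      have h7 : w.prod (D.tauQ hφ hinj) = D.oQ hφ hinj w.head := by
        simp only [ReducedWord.prod, h6, List.map_nil, List.prod_nil, mul_one]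
      rw [h7] at h1
      have h8 := HNNExtension.of_injective (φ := D.tauQ hφ hinj) h1
      exact hq (h8 ▸ hk)
    · obtain ⟨u, m, hum⟩ : ∃ (u : ℤˣ) (m : ℕ), toAdd (D.h g) = (u : ℤ) * ((m : ℤ) + 1) := by
        rcases lt_or_gt_of_ne hn with h | h
        · refine ⟨-1, (toAdd (D.h g)).natAbs - 1, ?_⟩
          simp only [Units.val_neg, Units.val_one]
          omega
        · refine ⟨1, (toAdd (D.h g)).natAbs - 1, ?_⟩
          simp only [Units.val_one]
          omega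
      obtain ⟨w2, g1, g2, g3, g4⟩ := D.exists_tpow hφ hinj ⟨1, [], List.isChain_nil⟩ u
        (Or.inr rfl) m
      have h9 : w.prod (D.tauQ hφ hinj) = ReducedWord.prod (D.tauQ hφ hinj)
          (⟨D.kQ hφ (D.kp g), w2.toList, w2.chain⟩ : D.RW hφ) := by
        rw [h1, hum]
        have g5 : ReducedWord.prod (D.tauQ hφ hinj) (⟨1, [], List.isChain_nil⟩ : D.RW hφ) = 1 := by
          simp [ReducedWord.prod]
        rw [g5, mul_one] at g2
        rw [← g2]
        simp only [ReducedWord.prod, g1, map_one, one_mul]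
      obtain ⟨h10, h11⟩ := ReducedWord.map_fst_eq_and_of_prod_eq (D.tauQ hφ hinj) h9
      obtain ⟨a, l, hal⟩ : ∃ a l, w2.toList = a :: l := List.exists_cons_of_ne_nil g3
      have h12 : w.toList.head?.map Prod.fst = some a.1 := by
        rw [← List.head?_map, h10, hal]
        simp
      have h13 := h11 a.1 (by rw [h12]; rfl)
      rw [toSub] at h13
      have h14 := mul_mem (inv_mem h13) hk
      apply hq
      have h15 : w.head = D.kQ hφ (D.kp g) * (w.head⁻¹ * D.kQ hφ (D.kp g))⁻¹ := by group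
      rw [h15]
      exact mul_mem hk (inv_mem h13)

end

end Dat

/-- Module G2. -/
theorem stG2 (hF : StF) : StG2 := by
  intro G _ D hW A _ i v hExt φ hφ L hne hL
  obtain ⟨φ', hφ', hinj', -, -⟩ := hF G D hW
  obtain rfl := D.phi_unique hφ hφ'
  obtain ⟨ψ, h1, h2, h3⟩ := D.exists_psi hφ hinj' hExt
  rintro ⟨g, hg⟩
  refine D.word_ne hφ hinj' L hne hL g ?_
  have h4 : ∀ g, ψ (i g) = D.psiG hφ hinj' g := fun g => DFunLike.congr_fun h1 g
  rw [← h4 g, hg, map_list_prod, List.map_map]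
  congr 1
  refine List.map_congr_left fun p _ => ?_
  simp only [Function.comp_apply, map_mul, map_zpow, h4, h2, D.psiG_t₀ hφ hinj', Dat.psiv,
    mul_inv_cancel_left]

end Pool.Agent.Lib.MP_e6f638_al
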