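import Mathlib
import Pool.Agent.Lib.MP_551055_al.Trim.X.MP_e6f638_al.F
import Pool.Agent.Lib.MP_551055_al.Trim.X.MP_e6f638_al.Stmts

/-!
# Module H, first part: words of `Ah`, conversion, signs
-/

set_option autoImplicit false

namespace Pool.Agent.Lib.MP_e6f638_al

open Multiplicative HNNExtension HNNExtension.NormalWord

/-! ## Inverse words -/

/-- The letters of the inverse of the word with head `g`. -/
def invL {G : Type} [Group G] : G → List (ℤˣ × G) → List (ℤˣ × G)
  | _, [] => []
  | g, (d, k) :: R => invL k R ++ [(-d, g⁻¹)]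

/-- The last coefficient of the word with head `g`. -/
def lastG {G : Type} : G → List (ℤˣ × G) → G
  | g, [] => g
  | _, (_, k) :: R => lastG k R

theorem invL_two {G : Type} [Group G] (L₀ : List (ℤˣ × G)) (g : G) (d δ : ℤˣ) (p g' : G) :
    ∃ q rest, invL g (L₀ ++ [(d, p), (δ, g')]) = (-δ, p⁻¹) :: (-d, q) :: rest := by
  induction L₀ generalizing g with
  | nil => exact ⟨g⁻¹, [], rfl⟩
  | cons a L ih =>
    obtain ⟨e, k⟩ := a
    obtain ⟨q, rest, h⟩ := ih k
    refine ⟨q, rest ++ [(-e, g⁻¹)], ?_⟩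
    rw [List.cons_append, invL, h]
    rfl

theorem invL_getLast {G : Type} [Group G] (g : G) (d : ℤˣ) (k : G) (R : List (ℤˣ × G)) :
    (invL g ((d, k) :: R)).getLast? = some (-d, g⁻¹) := by
  rw [invL]
  simp

namespace Dat

variable {G : Type} [Group G] (D : Dat G)

theorem hprod_append (M M' : List (ℤˣ × G)) : D.hprod (M ++ M') = D.hprod M * D.hprod M' := by
  simp [hprod]

theorem hprod_nil : D.hprod [] = 1 := rfl

theorem hprod_invL (L : List (ℤˣ × G)) (g : G) :
    (D.ofG (lastG g L))⁻¹ * D.hprod (invL g L) = (D.ofG g * D.hprod L)⁻¹ := by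
  induction L generalizing g with
  | nil => simp [invL, lastG, hprod_nil]
  | cons a L ih =>
    obtain ⟨d, k⟩ := a
    rw [invL, lastG, hprod_append, hprod_cons, hprod_cons, hprod_nil, mul_one, ← mul_assoc,
      ih k]
    simp only [mul_inv_rev, mul_assoc, Units.val_neg, zpow_neg, map_inv]

theorem hred_invL (L : List (ℤˣ × G)) (g : G) (h : D.HRed L) : D.HRed (invL g L) := by
  induction L generalizing g with
  | nil => exact List.isChain_nil
  | cons a L ih =>
    obtain ⟨d, k⟩ := a
    rw [invL]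
    have h1 : D.HRed (invL k L) := ih k (List.isChain_cons.1 h).2
    refine List.isChain_append.2 ⟨h1, List.isChain_singleton _, ?_⟩
    intro x hx y hy
    rcases L with _ | ⟨⟨d', k'⟩, L'⟩
    · rw [invL] at hx
      simp at hx
    · rw [invL_getLast] at hx
      have e1 : x = (-d', k⁻¹) := by simpa using hx.symm
      have e2 : y = (-d, g⁻¹) := by simpa using hy.symm
      subst e1 e2
      intro hB
      have h2 := (List.isChain_cons_cons.1 h).1
      have h3 : d = d' := h2 (by simpa using hB)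
      rw [h3]

/-- The last part of `StF` for the map `φ`. -/
def FProp (φ : D.E →* D.Ah) : Prop :=
  ∀ e : D.E, φ e ∉ D.ofG.range →
      ∃ w : HNNExtension.NormalWord.ReducedWord G D.B D.B, w.prod (MulEquiv.refl D.B) = φ e ∧
        ∃ (i : D.ι) (ε σ : ℤˣ) (r r' : G) (rest : List (ℤˣ × G)),
          w.toList = (ε, r) :: (σ, r') :: rest ∧ D.Chain (fun _ => True) i ε r σ ∧
          (rest = [] → D.Chain (fun i => D.l i = 2) i ε r σ)

theorem not_range (g : G) (L : List (ℤˣ × G)) (hL : D.HRed L) (hne : L ≠ []) :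
    D.ofG g * D.hprod L ∉ D.ofG.range := by
  intro hc
  obtain ⟨w, -, h2, h3⟩ := D.exists_word g L hL
  rw [← h3] at hc
  exact hne (h2 ▸ ReducedWord.toList_eq_nil_of_mem_of_range _ w hc)

theorem run_one {φ : D.E →* D.Ah} (hφ : D.FProp φ) (g : G) (d : ℤˣ) (p : G) :
    D.ofG g * D.hprod [(d, p)] ∉ φ.range := by
  rintro ⟨e, he⟩
  have hr : D.HRed [(d, p)] := List.isChain_singleton _
  have h1 := D.not_range g [(d, p)] hr (by simp)
  obtain ⟨w, -, h2, h3⟩ := D.exists_word g [(d, p)] hr
  obtain ⟨w', h4, i, ε, σ, r, r', rest, h5, -⟩ := hφ e (by rw [he]; exact h1)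
  have h6 := (ReducedWord.map_fst_eq_and_of_prod_eq (MulEquiv.refl D.B)
    (h3.trans (he.symm.trans h4.symm))).1
  rw [h2, h5] at h6
  simp at h6

theorem run_first {φ : D.E →* D.Ah} (hφ : D.FProp φ) (g : G) (d d' : ℤˣ) (p p' : G)
    (rest : List (ℤˣ × G)) (hr : D.HRed ((d, p) :: (d', p') :: rest))
    (hm : D.ofG g * D.hprod ((d, p) :: (d', p') :: rest) ∈ φ.range) :
    ∃ (i : D.ι) (r b b' : G), b ∈ D.B ∧ b' ∈ D.B ∧ p = b * r * b' ∧
      D.Chain (fun _ => True) i d r d' ∧ (rest = [] → D.Chain (fun i => D.l i = 2) i d r d') := by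
  obtain ⟨e, he⟩ := hm
  have h1 := D.not_range g _ hr (by simp)
  obtain ⟨w, hh, h2, h3⟩ := D.exists_word g _ hr
  obtain ⟨w', h4, i, ε, σ, r, r', rest', h5, hc1, hc2⟩ := hφ e (by rw [he]; exact h1)
  have h6 := ReducedWord.map_fst_eq_and_of_prod_eq (MulEquiv.refl D.B)
    (h3.trans (he.symm.trans h4.symm))
  have h6a := h6.1
  rw [h2, h5] at h6a
  simp only [List.map_cons, List.cons.injEq] at h6a
  obtain ⟨rfl, rfl, h6c⟩ := h6a
  have h6b := h6.2 d (by rw [h2]; simp)
  rw [D.toSubgroup_eq, hh] at h6b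
  set b0 := g⁻¹ * w'.head with hb0
  have hw' : D.HRed ((d, r) :: (d', r') :: rest') := by
    rw [← h5]
    exact (D.hred_iff _).2 w'.chain
  obtain ⟨v1, e1, e2, e3⟩ := D.exists_word p ((d', p') :: rest) (List.isChain_cons.1 hr).2
  obtain ⟨v2, e4, e5, e6⟩ := D.exists_word (b0 * r) ((d', r') :: rest') (List.isChain_cons.1 hw').2
  have hw'p : w'.prod (MulEquiv.refl D.B) = D.ofG w'.head * D.hprod ((d, r) :: (d', r') :: rest') := by
    rw [← h5]; rfl
  have hcomm : Commute (D.ofG b0) (D.u ^ (d : ℤ)) := (D.commute_u h6b).zpow_right _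
  have heq : D.ofG p * D.hprod ((d', p') :: rest) = D.ofG (b0 * r) * D.hprod ((d', r') :: rest') := by
    have h7 : D.ofG g * D.hprod ((d, p) :: (d', p') :: rest) =
        D.ofG w'.head * D.hprod ((d, r) :: (d', r') :: rest') := by
      rw [← hw'p, h4, he]
    rw [D.hprod_cons d p, D.hprod_cons d r] at h7
    have h8 : w'.head = g * b0 := by rw [hb0]; group
    rw [h8, map_mul] at h7
    have h9 : D.ofG g * (D.u ^ (d : ℤ) * (D.ofG p * D.hprod ((d', p') :: rest))) =
        D.ofG g * (D.u ^ (d : ℤ) * (D.ofG (b0 * r) * D.hprod ((d', r') :: rest'))) := by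
      rw [map_mul]
      calc D.ofG g * (D.u ^ (d : ℤ) * (D.ofG p * D.hprod ((d', p') :: rest)))
          = D.ofG g * (D.u ^ (d : ℤ) * D.ofG p * D.hprod ((d', p') :: rest)) := by
            simp only [mul_assoc]
        _ = D.ofG g * D.ofG b0 * (D.u ^ (d : ℤ) * D.ofG r * D.hprod ((d', r') :: rest')) := h7
        _ = D.ofG g * ((D.ofG b0 * D.u ^ (d : ℤ)) * (D.ofG r * D.hprod ((d', r') :: rest'))) := by
            simp only [mul_assoc]
        _ = _ := by rw [hcomm.eq]; simp only [mul_assoc]
    exact mul_left_cancel (mul_left_cancel h9)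
  have h10 := (ReducedWord.map_fst_eq_and_of_prod_eq (MulEquiv.refl D.B)
    (e3.trans (heq.trans e6.symm))).2 d' (by rw [e2]; simp)
  rw [D.toSubgroup_eq, e1, e4] at h10
  refine ⟨i, r, b0, (p⁻¹ * (b0 * r))⁻¹, h6b, D.B.inv_mem h10, ?_, hc1, ?_⟩
  · group
  · intro hr0
    refine hc2 ?_
    subst hr0
    simpa using h6c

end Dat

/-! ## Conversion of words in `u` to words in `x = t₀ u` -/

section Conv

variable {G : Type} [Group G] (t0 : G)

/-- The factor behind `x ^ d`. -/
def pre (d : ℤˣ) : G := if d = 1 then 1 else t0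

/-- The factor in front of `x ^ d`. -/
def suf (d : ℤˣ) : G := if d = 1 then t0⁻¹ else 1

/-- The factor in front of a word. -/
def sufh : List (ℤˣ × G) → G
  | [] => 1
  | (d, _) :: _ => suf t0 d

/-- The converted word. -/
def cv : List (ℤˣ × G) → List (ℤˣ × G)
  | [] => []
  | (d, p) :: R => (d, pre t0 d * p * sufh t0 R) :: cv R

theorem conv_eq {K : Type} [Group K] (f : G →* K) (v : K) (d : ℤˣ) :
    v ^ (d : ℤ) = f (suf t0 d) * (f t0 * v) ^ (d : ℤ) * f (pre t0 d) := by
  rcases Int.units_eq_one_or d with rfl | rfl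
  · simp [suf, pre]
  · have hne : ¬ ((-1 : ℤˣ) = 1) := by decide
    simp [suf, pre, hne]

theorem conv_eq' {K : Type} [Group K] (f : G →* K) (v : K) (d : ℤˣ) :
    (f t0 * v) ^ (d : ℤ) = (f (suf t0 d))⁻¹ * v ^ (d : ℤ) * (f (pre t0 d))⁻¹ := by
  rw [conv_eq t0 f v d]
  group

theorem cv_prod {K : Type} [Group K] (f : G →* K) (v : K) (R : List (ℤˣ × G)) :
    ((cv t0 R).map fun p => (f t0 * v) ^ (p.1 : ℤ) * f p.2).prod =
      (f (sufh t0 R))⁻¹ * (R.map fun p => v ^ (p.1 : ℤ) * f p.2).prod := by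
  induction R with
  | nil => simp [cv, sufh]
  | cons a R ih =>
    obtain ⟨d, p⟩ := a
    rw [cv, List.map_cons, List.prod_cons, ih, List.map_cons, List.prod_cons, sufh]
    simp only [map_mul]
    rw [conv_eq' t0 f v d]
    simp only [mul_assoc, inv_mul_cancel_left, mul_inv_cancel_left]

theorem cv_split (L₁ L' R : List (ℤˣ × G)) (h : cv t0 R = L₁ ++ L') :
    ∃ R₁ R', R = R₁ ++ R' ∧ cv t0 R' = L' := by
  induction L₁ generalizing R with
  | nil => exact ⟨[], R, rfl, h⟩
  | cons a L ih =>
    rcases R with _ | ⟨⟨d, p⟩, R⟩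
    · simp [cv] at h
    · rw [cv, List.cons_append, List.cons.injEq] at h
      obtain ⟨R₁, R', h1, h2⟩ := ih R h.2
      exact ⟨(d, p) :: R₁, R', by rw [h1]; rfl, h2⟩

theorem cv_run {K : Type} [Group K] (f : G →* K) (v : K) (R₀ : List (ℤˣ × G)) (δ : ℤˣ) (κ : G)
    (L₂ R' : List (ℤˣ × G)) (h : cv t0 R' = R₀ ++ (δ, κ) :: L₂) :
    ∃ RR p R₂, R' = RR ++ (δ, p) :: R₂ ∧
      (R₀.map fun p => (f t0 * v) ^ (p.1 : ℤ) * f p.2).prod * (f t0 * v) ^ (δ : ℤ) =
        (f (sufh t0 R'))⁻¹ *
          ((RR ++ [(δ, (pre t0 δ)⁻¹)]).map fun p => v ^ (p.1 : ℤ) * f p.2).prod := by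
  induction R₀ generalizing R' with
  | nil =>
    rcases R' with _ | ⟨⟨d, p⟩, R⟩
    · simp [cv] at h
    · rw [cv, List.nil_append, List.cons.injEq, Prod.mk.injEq] at h
      obtain ⟨⟨rfl, -⟩, -⟩ := h
      refine ⟨[], p, R, rfl, ?_⟩
      simp only [List.map_nil, List.prod_nil, one_mul, List.nil_append, List.map_cons,
        List.prod_cons, mul_one, sufh, map_inv]
      rw [conv_eq' t0 f v d]
      simp only [mul_assoc]
  | cons a R₀ ih =>
    rcases R' with _ | ⟨⟨d, p⟩, R⟩
    · simp [cv] at h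
    · rw [cv, List.cons_append, List.cons.injEq] at h
      obtain ⟨rfl, h2⟩ := h
      obtain ⟨RR, p', R₂, h3, h4⟩ := ih R h2
      refine ⟨(d, p) :: RR, p', R₂, by rw [h3]; rfl, ?_⟩
      rw [List.map_cons, List.prod_cons, mul_assoc, h4, List.cons_append, List.map_cons,
        List.prod_cons, sufh]
      simp only [map_mul]
      rw [conv_eq' t0 f v d]
      simp only [mul_assoc, inv_mul_cancel_left, mul_inv_cancel_left]

end Conv

/-! ## Signs -/

theorem defects_cons_cons (a b : ℤˣ) (L : List ℤˣ) :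
    defects (a :: b :: L) = (if a = b then 1 else 0) + defects (b :: L) := rfl

theorem defects_mid (X : List ℤˣ) (a : ℤˣ) (Y : List ℤˣ) :
    defects (X ++ a :: Y) = defects (X ++ [a]) + defects (a :: Y) := by
  induction X with
  | nil => simp [defects]
  | cons x X ih =>
    rcases X with _ | ⟨y, X⟩
    · simp only [List.cons_append, List.nil_append]
      rw [defects_cons_cons, defects_cons_cons]
      simp [defects]
    · simp only [List.cons_append] at ih ⊢
      rw [defects_cons_cons, defects_cons_cons, ih]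
      omega

theorem defects_append_ge (A B : List ℤˣ) : defects A + defects B ≤ defects (A ++ B) := by
  induction A with
  | nil => simp [defects]
  | cons a A ih =>
    rcases A with _ | ⟨a', A⟩
    · rcases B with _ | ⟨b, B⟩
      · simp [defects]
      · simp only [List.cons_append, List.nil_append]
        rw [defects_cons_cons]
        simp [defects]
    · simp only [List.cons_append] at ih ⊢
      rw [defects_cons_cons, defects_cons_cons]
      omega

theorem defects_append_le (A B : List ℤˣ) : defects (A ++ B) ≤ defects A + 1 + defects B := by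
  induction A with
  | nil => simp
  | cons a A ih =>
    rcases A with _ | ⟨a', A⟩
    · rcases B with _ | ⟨b, B⟩
      · simp [defects]
      · simp only [List.cons_append, List.nil_append]
        rw [defects_cons_cons]
        simp only [defects]
        split_ifs <;> omega
    · simp only [List.cons_append] at ih ⊢
      rw [defects_cons_cons, defects_cons_cons]
      omega

theorem defects_neg (A : List ℤˣ) : defects (A.map fun e => -e) = defects A := by
  induction A with
  | nil => rfl
  | cons a A ih =>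
    rcases A with _ | ⟨b, A⟩
    · rfl
    · simp only [List.map_cons] at ih ⊢
      rw [defects_cons_cons, defects_cons_cons, ih]
      simp only [neg_inj]

theorem defects_reverse (A : List ℤˣ) : defects A.reverse = defects A := by
  induction A with
  | nil => rfl
  | cons a A ih =>
    rcases A with _ | ⟨b, A⟩
    · rfl
    · rw [List.reverse_cons, List.reverse_cons, List.append_assoc, List.singleton_append,
        defects_mid, ← List.reverse_cons, ih, defects_cons_cons, defects_cons_cons]
      simp only [defects, eq_comm (a := b) (b := a)]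
      omega

theorem defects_parity (A : List ℤˣ) (ε σ : ℤˣ) : ∃ k : ℤ,
    2 * (A.map fun e : ℤˣ => (e : ℤ)).sum + ε + σ = 2 * (defects (ε :: (A ++ [σ])) : ℤ) + 4 * k := by
  have base : ∀ a b : ℤˣ, ∃ k : ℤ, (a : ℤ) + b = 2 * ((if a = b then 1 else 0 : ℕ) : ℤ) + 4 * k := by
    intro a b
    rcases Int.units_eq_one_or a with rfl | rfl <;> rcases Int.units_eq_one_or b with rfl | rfl
    · exact ⟨0, by simp⟩
    · exact ⟨0, by have : ¬ ((1 : ℤˣ) = -1) := by decide
                   simp [this]⟩
    · exact ⟨0, by have : ¬ ((-1 : ℤˣ) = 1) := by decide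
                   simp [this]⟩
    · exact ⟨-1, by simp⟩
  induction A generalizing ε with
  | nil =>
    obtain ⟨k, hk⟩ := base ε σ
    refine ⟨k, ?_⟩
    rw [List.nil_append, defects_cons_cons]
    simp only [List.map_nil, List.sum_nil, defects, add_zero]
    linarith
  | cons a A ih =>
    obtain ⟨k, hk⟩ := ih a
    obtain ⟨k', hk'⟩ := base ε a
    refine ⟨k + k', ?_⟩
    rw [List.cons_append, defects_cons_cons]
    simp only [List.map_cons, List.sum_cons]
    push_cast at hk' ⊢
    linarith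

end Pool.Agent.Lib.MP_e6f638_al
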