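import Mathlib
import Pool.Agent.Lib.MP_551055_al.Trim.X.MP_e6f638_al.H1
import Pool.Agent.Lib.MP_551055_al.Trim.X.MP_e6f638_al.Stmts

/-!
# Module H, second part: words in even Artin groups, condition (W)
-/

set_option autoImplicit false

namespace Pool.Agent.Lib.MP_e6f638_al

open Multiplicative HNNExtension HNNExtension.NormalWord

/-- The conclusion of module H for fixed `l` and `N`. -/
def HN {S : Type} (l : S → S → ℕ) (N : Set S) : Prop :=
  ∀ L : List (Letter l), L ≠ [] → IsRed l N L → defects (L.map fun p => p.2.1) ≤ 1 →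
    wprod l L ∉ par l Nᶜ

section Words

variable {S : Type} {l : S → S → ℕ}

theorem wprod_nil : wprod l [] = 1 := rfl

theorem wprod_cons (a : Letter l) (L : List (Letter l)) :
    wprod l (a :: L) = gen l a.1 ^ (a.2.1 : ℤ) * a.2.2 * wprod l L := by
  simp [wprod]

theorem wprod_append (L L' : List (Letter l)) :
    wprod l (L ++ L') = wprod l L * wprod l L' := by
  simp [wprod]

/-- The letters of the inverse word. -/
def invM : EA l → List (Letter l) → List (Letter l)
  | _, [] => []
  | c, (t, e, k) :: R => invM k R ++ [(t, -e, c⁻¹)]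

/-- The last coefficient. -/
def lastM : EA l → List (Letter l) → EA l
  | c, [] => c
  | _, (_, _, k) :: R => lastM k R

theorem wprod_invM (M : List (Letter l)) (c : EA l) :
    (lastM c M)⁻¹ * wprod l (invM c M) = (c * wprod l M)⁻¹ := by
  induction M generalizing c with
  | nil => simp [invM, lastM, wprod_nil]
  | cons a M ih =>
    obtain ⟨t, e, k⟩ := a
    rw [invM, lastM, wprod_append, wprod_cons, wprod_cons, wprod_nil, mul_one, ← mul_assoc,
      ih k]
    simp only [mul_inv_rev, mul_assoc, Units.val_neg, zpow_neg]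

theorem lastM_mem {P : Subgroup (EA l)} (M : List (Letter l)) (c : EA l) (hc : c ∈ P)
    (hM : ∀ p ∈ M, p.2.2 ∈ P) : lastM c M ∈ P := by
  induction M generalizing c with
  | nil => exact hc
  | cons a M ih =>
    obtain ⟨t, e, k⟩ := a
    rw [lastM]
    exact ih k (hM (t, e, k) (by simp)) (fun p hp => hM p (by simp [hp]))

theorem invM_getLast (c : EA l) (t : S) (e : ℤˣ) (k : EA l) (M : List (Letter l)) :
    (invM c ((t, e, k) :: M)).getLast? = some (t, -e, c⁻¹) := by
  rw [invM]
  simp

theorem invM_signs (M : List (Letter l)) (c : EA l) :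
    (invM c M).map (fun p => p.2.1) = ((M.map fun p => p.2.1).map fun e => -e).reverse := by
  induction M generalizing c with
  | nil => rfl
  | cons a M ih =>
    obtain ⟨t, e, k⟩ := a
    rw [invM, List.map_append, ih k]
    simp

theorem isRed_cons {N : Set S} (a : Letter l) (M : List (Letter l)) :
    IsRed l N (a :: M) ↔ (a.1 ∈ N ∧ a.2.2 ∈ par l Nᶜ) ∧
      (∀ b ∈ M.head?, a.1 = b.1 → a.2.1 = -b.2.1 → ¬ Commute a.2.2 (gen l a.1)) ∧
      IsRed l N M := by
  unfold IsRed
  rw [List.isChain_cons]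
  simp only [List.mem_cons, forall_eq_or_imp]
  tauto

theorem isRed_append {N : Set S} (M M' : List (Letter l)) (h : IsRed l N M) (h' : IsRed l N M')
    (hj : ∀ a ∈ M.getLast?, ∀ b ∈ M'.head?, a.1 = b.1 → a.2.1 = -b.2.1 →
      ¬ Commute a.2.2 (gen l a.1)) : IsRed l N (M ++ M') := by
  refine ⟨?_, List.isChain_append.2 ⟨h.2, h'.2, hj⟩⟩
  intro p hp
  rcases List.mem_append.1 hp with hp | hp
  · exact h.1 p hp
  · exact h'.1 p hp

theorem invM_red {N : Set S} (M : List (Letter l)) (c : EA l) (hc : c ∈ par l Nᶜ)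
    (h : IsRed l N M) : IsRed l N (invM c M) := by
  induction M generalizing c with
  | nil => exact ⟨by simp [invM], List.isChain_nil⟩
  | cons a M ih =>
    obtain ⟨t, e, k⟩ := a
    rw [isRed_cons] at h
    obtain ⟨⟨ht, hk⟩, hh, hM⟩ := h
    simp only at ht hk hh
    rw [invM]
    refine isRed_append _ _ (ih k hk hM) ?_ ?_
    · rw [isRed_cons]
      refine ⟨⟨ht, (par l Nᶜ).inv_mem hc⟩, by simp, ⟨by simp, List.isChain_nil⟩⟩
    · intro a ha b hb
      rcases M with _ | ⟨⟨t', e', k'⟩, M⟩
      · simp [invM] at ha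
      · rw [invM_getLast] at ha
        have e1 : a = (t', -e', k⁻¹) := by simpa using ha.symm
        have e2 : b = (t, -e, c⁻¹) := by simpa using hb.symm
        subst e1 e2
        simp only
        intro h1 h2 h3
        subst h1
        refine hh (t', e', k') (by simp) rfl ?_ ?_
        · simp only at h2 ⊢
          rw [neg_neg] at h2
          exact h2.symm
        · simpa using h3

/-- Two alternating words starting with opposite signs do not cancel. -/
theorem junction {N : Set S} (hH : HN l N) (M M' : List (Letter l)) (c : EA l)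
    (hc : c ∈ par l Nᶜ) (hM : IsRed l N M) (hM' : IsRed l N M') (hne : M' ≠ [])
    (hd : defects (M.map fun p => p.2.1) = 0) (hd' : defects (M'.map fun p => p.2.1) = 0)
    (hs : ∀ a ∈ M.head?, ∀ b ∈ M'.head?, a.2.1 = -b.2.1) :
    (c * wprod l M)⁻¹ * wprod l M' ∉ par l Nᶜ := by
  intro hmem
  refine hH (invM c M ++ M') (by simp [hne]) ?_ ?_ ?_
  · refine isRed_append _ _ (invM_red M c hc hM) hM' ?_
    intro a ha b hb h1 h2
    exfalso
    rcases M with _ | ⟨⟨t, e, k⟩, M⟩
    · simp [invM] at ha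
    · rw [invM_getLast] at ha
      have e1 : a = (t, -e, c⁻¹) := by simpa using ha.symm
      subst e1
      have h3 := hs (t, e, k) (by simp) b hb
      simp only at h2 h3
      rw [h3, neg_neg] at h2
      exact absurd h2 (by
        rcases Int.units_eq_one_or b.2.1 with h | h <;> rw [h] <;> decide)
  · rw [List.map_append, invM_signs]
    refine (defects_append_le _ _).trans ?_
    rw [defects_reverse, defects_neg, hd, hd']
  · rw [wprod_append]
    have h1 : lastM c M ∈ par l Nᶜ := lastM_mem M c hc (fun p hp => (hM.1 p hp).2)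
    have h2 : wprod l (invM c M) = lastM c M * (c * wprod l M)⁻¹ := by
      rw [← wprod_invM M c]; group
    rw [h2, mul_assoc]
    exact (par l Nᶜ).mul_mem h1 hmem

theorem gen_mem_parH {X : Set S} {s : S} (hs : s ∈ X) : gen l s ∈ par l X :=
  Subgroup.subset_closure ⟨s, hs, rfl⟩

theorem par_monoH {X Y : Set S} (h : X ⊆ Y) : par l X ≤ par l Y :=
  Subgroup.closure_mono (Set.image_mono h)

/-- The weight of a word. -/
theorem weight_wprod {N : Set S} (w : EA l →* Multiplicative ℤ)
    (hw : ∀ s ∈ N, w (gen l s) = ofAdd 1) (hw' : ∀ b ∈ par l Nᶜ, w b = 1)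
    (M : List (Letter l)) (hM : ∀ p ∈ M, p.1 ∈ N ∧ p.2.2 ∈ par l Nᶜ) :
    w (wprod l M) = ofAdd ((M.map fun p => ((p.2.1 : ℤˣ) : ℤ)).sum) := by
  induction M with
  | nil => simp [wprod_nil]
  | cons a M ih =>
    have ha := hM a (by simp)
    rw [wprod_cons, map_mul, map_mul, map_zpow, hw _ ha.1, hw' _ ha.2, mul_one,
      ih (fun p hp => hM p (by simp [hp])), List.map_cons, List.sum_cons, ofAdd_add,
      ← ofAdd_zsmul]
    simp

theorem weight_par {X : Set S} (w : EA l →* Multiplicative ℤ)
    (hw : ∀ s ∈ X, w (gen l s) = 1) (b : EA l) (hb : b ∈ par l X) : w b = 1 := by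
  have : par l X ≤ w.ker := by
    refine (Subgroup.closure_le _).2 ?_
    rintro _ ⟨s, hs, rfl⟩
    exact hw s hs
  exact this hb

end Words

/-! ## Chains as words -/

section Chains

variable {S : Type} {l : S → S → ℕ} {u : S} {D : Dat (EA (del l u))}

theorem par_B_le (hD : IsDatOf l u D) {N : Set {x : S // x ≠ u}} (hN1 : ∀ s ∈ N, l u s ≠ 1) :
    D.B ≤ par (del l u) Nᶜ := by
  rw [hD.B]
  refine par_monoH ?_
  intro c hc hcN
  exact hN1 c hcN hc

theorem chainWord (hD : IsDatOf l u D) {N : Set {x : S // x ≠ u}}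
    (hN1 : ∀ s ∈ N, l u s ≠ 1) (hN2 : ∀ s ∉ N, l u s ≠ 2)
    (g : D.ι → {x : S // x ≠ u}) (hg : ∀ i, D.t i = gen (del l u) (g i) ∧ l u (g i) = D.l i)
    {P : D.ι → Prop} {i : D.ι} {ε : ℤˣ} {r : EA (del l u)} {σ : ℤˣ} (h : D.Chain P i ε r σ) :
    (g i ∈ N → ∃ (b₀ : EA (del l u)) (M₀ : List (Letter (del l u))),
      IsRed (del l u) N ((g i, ε, b₀) :: M₀) ∧ r = wprod (del l u) ((g i, ε, b₀) :: M₀) ∧
      defects (((g i, ε, b₀) :: M₀).map fun p => p.2.1) = 0) ∧
    (g i ∉ N → r = D.t i ^ (ε : ℤ) ∧ σ = ε) := by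
  induction h with
  | base i ε hP =>
    refine ⟨fun hi => ⟨1, [], ?_, ?_, rfl⟩, fun hi => ⟨rfl, rfl⟩⟩
    · rw [isRed_cons]
      exact ⟨⟨hi, (par _ _).one_mem⟩, by simp, ⟨by simp, List.isChain_nil⟩⟩
    · rw [wprod_cons, wprod_nil, mul_one, mul_one, (hg i).1]
  | step i j ε b r σ hl hb hc hch ih =>
    have hi : g i ∈ N := by
      by_contra hi
      exact hN2 _ hi ((hg i).2.trans hl)
    have hbP := par_B_le hD hN1 hb
    refine ⟨fun _ => ?_, fun h => absurd hi h⟩
    by_cases hj : g j ∈ N
    · obtain ⟨b₀, M₀, h1, h2, h3⟩ := ih.1 hj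
      refine ⟨b, (g j, -ε, b₀) :: M₀, ?_, ?_, ?_⟩
      · rw [isRed_cons]
        refine ⟨⟨hi, hbP⟩, ?_, h1⟩
        intro a ha
        have e1 : a = (g j, -ε, b₀) := by simpa using ha.symm
        subst e1
        simp only
        intro h4 _
        rw [← (hg i).1]
        refine hc (hD.inj ?_)
        rw [(hg i).1, (hg j).1, h4]
      · rw [wprod_cons, ← h2, (hg i).1]
      · simp only [List.map_cons] at h3 ⊢
        rw [defects_cons_cons, h3]
        have : ¬ (ε = -ε) := by
          rcases Int.units_eq_one_or ε with rfl | rfl <;> decide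
        simp [this]
    · obtain ⟨h1, -⟩ := ih.2 hj
      refine ⟨b * r, [], ?_, ?_, rfl⟩
      · rw [isRed_cons]
        refine ⟨⟨hi, (par _ _).mul_mem hbP ?_⟩, by simp, ⟨by simp, List.isChain_nil⟩⟩
        rw [h1, (hg j).1]
        exact (par _ _).zpow_mem (gen_mem_parH hj) _
      · rw [wprod_cons, wprod_nil, mul_one, (hg i).1]
        simp only [mul_assoc]

/-- The weight of a chain all of whose blocks are letters. -/
theorem chain_weight (w : EA (del l u) →* Multiplicative ℤ) {P : D.ι → Prop}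
    (hw : ∀ i, P i → w (D.t i) = ofAdd 1) (hw2 : ∀ i, D.l i = 2 → w (D.t i) = ofAdd 1)
    (hwB : ∀ b ∈ D.B, w b = 1) {i : D.ι} {ε : ℤˣ} {r : EA (del l u)} {σ : ℤˣ}
    (h : D.Chain P i ε r σ) : ∃ n : ℤ, w r = ofAdd n ∧ 2 * n = ε + σ := by
  induction h with
  | base i ε hP =>
    refine ⟨(ε : ℤ), ?_, by ring⟩
    rw [map_zpow, hw i hP, ← ofAdd_zsmul]
    simp
  | step i j ε b r σ hl hb hc hch ih =>
    obtain ⟨n, h1, h2⟩ := ih
    refine ⟨(ε : ℤ) + n, ?_, ?_⟩
    · rw [map_mul, map_mul, map_zpow, hw2 i hl, hwB b hb, h1, mul_one, ofAdd_add,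
        ← ofAdd_zsmul]
      simp
    · rw [Units.val_neg] at h2
      linarith

/-- Condition (W). -/
theorem w_ofH (hI1 : StI1) (hl : ∀ s t, l s t = l t s) (hD : IsDatOf l u D)
    {N : Set {x : S // x ≠ u}} (hN1 : ∀ s ∈ N, l u s ≠ 1) (hN2 : ∀ s ∉ N, l u s ≠ 2)
    (hH : HN (del l u) N) : D.W := by
  choose g hg using hD.t
  obtain ⟨hw, hρ, -, -⟩ := hI1 {x : S // x ≠ u} (del l u) (fun s t => hl s t)
  intro i j ε b r hb hij hch hmem
  have hBP := par_B_le hD hN1
  obtain ⟨hc1, hc2⟩ := chainWord hD hN1 hN2 g hg hch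
  by_cases hi : g i ∈ N
  · by_cases hj : g j ∈ N
    · obtain ⟨b₀, M₀, h1, h2, h3⟩ := hc1 hj
      refine hH ((g i, ε, b) :: (g j, -ε, b₀) :: M₀) (by simp) ?_ ?_ ?_
      · rw [isRed_cons]
        refine ⟨⟨hi, hBP hb⟩, ?_, h1⟩
        intro a ha
        have e1 : a = (g j, -ε, b₀) := by simpa using ha.symm
        subst e1
        simp only
        intro h4 _
        rw [← (hg i).1]
        refine hij (hD.inj ?_)
        rw [(hg i).1, (hg j).1, h4]
      · simp only [List.map_cons] at h3 ⊢
        rw [defects_cons_cons, h3]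
        split_ifs <;> simp
      · rw [wprod_cons, ← h2]
        refine hBP ?_
        rw [(hg i).1] at hmem
        exact hmem
    · obtain ⟨h1, -⟩ := hc2 hj
      refine hH [(g i, ε, b * r)] (by simp) ?_ (by simp [defects]) ?_
      · rw [isRed_cons]
        refine ⟨⟨hi, (par _ _).mul_mem (hBP hb) ?_⟩, by simp, ⟨by simp, List.isChain_nil⟩⟩
        rw [h1, (hg j).1]
        exact (par _ _).zpow_mem (gen_mem_parH hj) _
      · rw [wprod_cons, wprod_nil, mul_one]
        refine hBP ?_
        rw [(hg i).1, mul_assoc] at hmem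
        exact hmem
  · have htP : D.t i ^ (ε : ℤ) ∈ par (del l u) Nᶜ := by
      rw [(hg i).1]
      exact (par _ _).zpow_mem (gen_mem_parH hi) _
    by_cases hj : g j ∈ N
    · obtain ⟨b₀, M₀, h1, h2, h3⟩ := hc1 hj
      refine hH _ (by simp) h1 (by rw [h3]; exact Nat.zero_le _) ?_
      rw [← h2]
      have h4 := hBP hmem
      rw [(par _ _).mul_mem_cancel_left ((par _ _).mul_mem htP (hBP hb))] at h4
      exact h4
    · obtain ⟨h1, -⟩ := hc2 hj
      subst h1
      have hliu : ∀ i, l u (g i) ≠ 1 := by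
        intro i
        rw [(hg i).2]
        have := D.two_le i
        omega
      by_cases hij' : i = j
      · subst hij'
        obtain ⟨ρ, hρ1, hρ2⟩ := hρ {c | l u c = 1}
        have hρB : ∀ b ∈ D.B, ρ b = b := by
          intro b hb
          rw [hD.B] at hb
          have : par (del l u) {c | l u c = 1} ≤ MonoidHom.eqLocus ρ (MonoidHom.id _) := by
            refine (Subgroup.closure_le _).2 ?_
            rintro _ ⟨s, hs, rfl⟩
            exact hρ1 s hs
          exact this hb
        have hρt : ρ (D.t i) = 1 := by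
          rw [(hg i).1]
          exact hρ2 _ (hliu i)
        have h5 := hρB _ hmem
        rw [map_mul, map_mul, map_zpow, map_zpow, hρt, one_zpow, one_zpow, one_mul, mul_one,
          hρB b hb] at h5
        have h6 : D.t i ^ (ε : ℤ) * b = b * D.t i ^ (ε : ℤ) := by
          rw [Units.val_neg, zpow_neg] at h5
          calc D.t i ^ (ε : ℤ) * b = (D.t i ^ (ε : ℤ) * b * (D.t i ^ (ε : ℤ))⁻¹) *
              D.t i ^ (ε : ℤ) := by group
            _ = b * D.t i ^ (ε : ℤ) := by rw [← h5]
        refine hij rfl ?_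
        have h7 : Commute b (D.t i ^ (ε : ℤ)) := h6.symm
        rcases Int.units_eq_one_or ε with rfl | rfl
        · simpa using h7
        · simpa using h7
      · classical
        obtain ⟨w, hw⟩ := hw (fun x => if x = g i then 1 else 0)
        have hwB : ∀ b ∈ D.B, w b = 1 := by
          intro b hb
          rw [hD.B] at hb
          refine weight_par w ?_ b hb
          intro s hs
          rw [hw]
          have : s ≠ g i := by
            rintro rfl
            exact hliu i hs
          simp [this]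
        have hne : g j ≠ g i := by
          intro h
          refine hij' (hD.inj ?_)
          rw [(hg i).1, (hg j).1, h]
        have h5 := hwB _ hmem
        rw [map_mul, map_mul, map_zpow, map_zpow, (hg i).1, (hg j).1, hw, hw, hwB b hb,
          if_pos rfl, if_neg hne, ofAdd_zero, one_zpow, mul_one, mul_one, ← ofAdd_zsmul] at h5
        have h6 : (ε : ℤ) = 0 := by simpa using h5
        rcases Int.units_eq_one_or ε with rfl | rfl <;> simp at h6

end Chains

end Pool.Agent.Lib.MP_e6f638_al
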