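import Mathlib
import Pool.Agent.Lib.MP_551055_al.Trim.X.MP_e6f638_al.I1
import Pool.Agent.Lib.MP_551055_al.Trim.X.MP_e6f638_al.Stmts

/-!
# Module I2: the splitting data of an even Artin group
-/

set_option autoImplicit false

namespace Pool.Agent.Lib.MP_e6f638_al

open Multiplicative

theorem mul_pow_comm_mul {K : Type} [Group K] (a b : K) (n : ℕ) :
    (a * b) ^ n * a = a * (b * a) ^ n := by
  induction n with
  | zero => simp
  | succ n ih => rw [pow_succ', mul_assoc, ih, pow_succ']; simp only [mul_assoc]

theorem pow_eq_of_comm {K : Type} [Group K] {a b : K} {n : ℕ}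
    (h : (a * b) ^ n * a = a * (a * b) ^ n) : (b * a) ^ n = (a * b) ^ n := by
  rw [mul_pow_comm_mul] at h
  exact mul_left_cancel h

section

variable {S : Type} (l : S → S → ℕ) (hl : ∀ s t, l s t = l t s) (u : S)

/-- The inclusion of the group without the generator `u`. -/
noncomputable def inD : EA (del l u) →* EA l :=
  liftEA _ (fun s => gen l (s : S)) (fun a b => gen_rel l a b)

@[simp]
theorem inD_gen (s : {x : S // x ≠ u}) : inD l u (gen _ s) = gen l (s : S) := liftEA_gen _ _ _ _

open Classical in
/-- The retraction killing `u`. -/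
noncomputable def killD : EA l →* EA (del l u) :=
  liftEA l (fun s => if h : s ≠ u then gen (del l u) ⟨s, h⟩ else 1) (by
    intro s t
    by_cases hs : s = u
    · simp [hs]
    · by_cases ht : t = u
      · simp [ht]
      · simp only [ne_eq, hs, not_false_eq_true, dif_pos, ht]
        exact gen_rel (del l u) ⟨s, hs⟩ ⟨t, ht⟩)

theorem killD_gen {s : S} (h : s ≠ u) : killD l u (gen l s) = gen _ ⟨s, h⟩ := by
  simp [killD, h]

theorem killD_self : killD l u (gen l u) = 1 := by
  simp [killD]

theorem killD_inD (y : EA (del l u)) : killD l u (inD l u y) = y := by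
  have : (killD l u).comp (inD l u) = MonoidHom.id _ := by
    refine hom_ext_EA _ fun a => ?_
    rw [MonoidHom.comp_apply, inD_gen, killD_gen l u a.2, MonoidHom.id_apply]
  exact DFunLike.congr_fun this y

theorem inD_injective : Function.Injective (inD l u) :=
  Function.LeftInverse.injective (killD_inD l u)

/-- The data of the splitting. -/
noncomputable def datD (s₀ : {x : S // x ≠ u}) (hs₀ : l u s₀ ≠ 1) : Dat (EA (del l u)) where
  B := par (del l u) {c | l u c = 1}
  ι := {s : {x : S // x ≠ u} // 2 ≤ l u s}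
  t := fun i => gen _ i.1
  l := fun i => l u i.1
  h := wt (del l u) (fun s => if l u s = 1 then 0 else 1)
  t₀ := gen _ s₀
  two_le := fun i => i.2
  h_t := fun i => by
    have := i.2
    rw [wt_gen, if_neg (by omega)]
  h_t₀ := by rw [wt_gen, if_neg hs₀]
  h_B := fun b hb => wt_par _ (fun s hs => if_pos hs) hb

theorem isDatOf_datD (s₀ : {x : S // x ≠ u}) (hs₀ : l u s₀ ≠ 1) :
    IsDatOf l u (datD l u s₀ hs₀) where
  B := rfl
  h := fun s => by
    change wt (del l u) _ _ = _
    rw [wt_gen]
    split_ifs <;> simp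
  t := fun i => ⟨i.1, rfl, rfl⟩
  surj := fun s hs => ⟨⟨s, hs⟩, rfl⟩
  inj := fun i j h => Subtype.ext (gen_injective _ h)
  t₀ := ⟨s₀, rfl, hs₀⟩

include hl in
theorem isExt_datD (s₀ : {x : S // x ≠ u}) (hs₀ : l u s₀ ≠ 1) :
    (datD l u s₀ hs₀).IsExt (EA l) (inD l u) (gen l u) where
  comm := by
    intro b hb
    change b ∈ par (del l u) {c | l u c = 1} at hb
    change Commute _ _
    induction hb using Subgroup.closure_induction with
    | mem x hx =>
      obtain ⟨s, hs, rfl⟩ := hx
      have h := gen_rel l u (s : S)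
      have hs' : l u s = 1 := hs
      rw [hs', pow_one, pow_one] at h
      rw [inD_gen]
      exact h.symm
    | one => rw [map_one]; exact Commute.one_left _
    | mul x y _ _ hx hy => rw [map_mul]; exact hx.mul_left hy
    | inv x _ hx => rw [map_inv]; exact hx.inv_left
  rel := by
    intro k
    change (inD l u (gen _ k.1) * gen l u) ^ l u k.1 * inD l u (gen _ k.1) =
      inD l u (gen _ k.1) * (inD l u (gen _ k.1) * gen l u) ^ l u k.1
    rw [inD_gen, mul_pow_comm_mul, gen_rel l u (k.1 : S)]
  lift := by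
    intro K _ f w h1 h2
    classical
    have key : ∀ t : {x : S // x ≠ u}, (w * f (gen _ t)) ^ l u t = (f (gen _ t) * w) ^ l u t := by
      intro t
      rcases Nat.lt_or_ge (l u t) 2 with h | h
      · have h3 : l u t = 0 ∨ l u t = 1 := by omega
        rcases h3 with h3 | h3
        · rw [h3, pow_zero, pow_zero]
        · rw [h3, pow_one, pow_one]
          exact (h1 _ (gen_mem_par (del l u) (X := {c | l u c = 1}) h3)).symm
      · exact pow_eq_of_comm (h2 ⟨t, h⟩)
    refine ⟨liftEA l (fun s => if h : s ≠ u then f (gen _ ⟨s, h⟩) else w) ?_, ?_, ?_⟩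
    · intro s t
      by_cases hs : s = u
      · by_cases ht : t = u
        · simp [hs, ht]
        · subst hs
          simp only [ne_eq, not_true_eq_false, not_false_eq_true, dif_neg, ht, dif_pos]
          exact key ⟨t, ht⟩
      · by_cases ht : t = u
        · subst ht
          simp only [ne_eq, not_true_eq_false, not_false_eq_true, dif_neg, hs, dif_pos]
          rw [hl s t]
          exact (key ⟨s, hs⟩).symm
        · simp only [ne_eq, hs, not_false_eq_true, dif_pos, ht]
          rw [← map_mul, ← map_mul, ← map_pow, ← map_pow]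
          exact congrArg f (gen_rel (del l u) ⟨s, hs⟩ ⟨t, ht⟩)
    · refine hom_ext_EA _ fun s => ?_
      rw [MonoidHom.comp_apply, inD_gen, liftEA_gen, dif_pos s.2]
    · rw [liftEA_gen, dif_neg (by simp)]
  gen := by
    rw [eq_top_iff, ← closure_gen l, Subgroup.closure_le]
    rintro _ ⟨s, rfl⟩
    by_cases hs : s = u
    · rw [hs]; exact Subgroup.subset_closure (Or.inr rfl)
    · exact Subgroup.subset_closure (Or.inl ⟨gen _ ⟨s, hs⟩, inD_gen l u ⟨s, hs⟩⟩)

end

/-- Module I2. -/
theorem stI2 : StI2 := by
  rintro S l hl u ⟨s₀, hs₀⟩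
  exact ⟨datD l u s₀ hs₀, isDatOf_datD l u s₀ hs₀, inD l u, inD_gen l u, inD_injective l u,
    isExt_datD l hl u s₀ hs₀⟩

end Pool.Agent.Lib.MP_e6f638_al
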