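import Mathlib
import Pool.Agent.Lib.MP_551055_al.Trim.X.MP_e6f638_al.F
import Pool.Agent.Lib.MP_551055_al.Trim.X.MP_e6f638_al.G2
import Pool.Agent.Lib.MP_551055_al.Trim.X.MP_e6f638_al.H
import Pool.Agent.Lib.MP_551055_al.Trim.X.MP_e6f638_al.I1
import Pool.Agent.Lib.MP_551055_al.Trim.X.MP_e6f638_al.I2
import Pool.Agent.Lib.MP_551055_al.Trim.X.MP_e6f638_al.Stmts

/-!
# Assembly
-/

set_option autoImplicit false

namespace Pool.Agent.Lib.MP_e6f638_al

/-- Alternating words. -/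
theorem stH_all : StH := stH (stG2 stF) stI1 stI2

end Pool.Agent.Lib.MP_e6f638_al
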