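import Mathlib
import Pool.Agent.Lib.MP_551055_al.Trim.X.MP_e6f638_al.Stmts

/-!
# Module E1: the Bass-Serre tree of an HNN extension
-/

set_option autoImplicit false

namespace Pool.Agent.Lib.MP_e6f638_al.E1aux
end Pool.Agent.Lib.MP_e6f638_al.E1aux

namespace Pool.Agent.Lib.MP_e6f638_al

namespace E1aux

universe u v

/-- A graph whose vertices are lists, closed under tails, where `l` is joined to `a :: l`, is a
tree. -/
theorem isTree_of_lists {V : Type u} {α : Type v} (T : SimpleGraph V) (L : V → List α)
    (hinj : Function.Injective L) (x₀ : V) (h₀ : L x₀ = [])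
    (htl : ∀ y a l, L y = a :: l → ∃ x, L x = l)
    (hadj : ∀ x y, T.Adj x y ↔ (∃ a, L x = a :: L y) ∨ ∃ a, L y = a :: L x) : T.IsTree := by
  rw [SimpleGraph.isTree_iff]
  refine ⟨?_, ?_⟩
  · have hre : ∀ (l : List α) (y : V), L y = l → T.Reachable y x₀ := by
      intro l
      induction l with
      | nil =>
        intro y hy
        rw [hinj (hy.trans h₀.symm)]
      | cons a l ih =>
        intro y hy
        obtain ⟨x, hx⟩ := htl y a l hy
        have h1 : T.Adj y x := (hadj y x).2 (Or.inl ⟨a, by rw [hy, hx]⟩)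
        exact h1.reachable.trans (ih x hx)
    have : Nonempty V := ⟨x₀⟩
    exact SimpleGraph.Connected.mk fun x y => (hre _ x rfl).trans (hre _ y rfl).symm
  · rw [SimpleGraph.isAcyclic_iff_forall_adj_isBridge]
    have key : ∀ x y : V, T.Adj x y → (∃ a, L y = a :: L x) → T.IsBridge s(x, y) := by
      intro x y _ hxy
      obtain ⟨a, ha⟩ := hxy
      rw [SimpleGraph.isBridge_iff]
      intro hr
      obtain ⟨w⟩ := hr.symm
      have hcl : ∀ (z z' : V) (_ : (T.deleteEdges {s(x, y)}).Walk z z'),
          L y <:+ L z → L y <:+ L z' := by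
        intro z z' w
        induction w with
        | nil => exact id
        | cons hab _ ih =>
          rename_i z z' z'' _
          intro hz
          refine ih ?_
          rw [SimpleGraph.deleteEdges_adj] at hab
          obtain ⟨hab, hne⟩ := hab
          rcases (hadj z z').1 hab with ⟨b, hb⟩ | ⟨b, hb⟩
          · rw [hb] at hz
            rcases List.suffix_cons_iff.1 hz with h1 | h1
            · exfalso
              apply hne
              have h2 : z = y := hinj (hb.trans h1.symm)
              have h3 : z' = x := by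
                apply hinj
                rw [ha] at h1
                exact (List.cons.inj h1).2.symm
              rw [h2, h3]
              exact Sym2.eq_swap
            · exact h1
          · rw [hb]
            exact hz.trans (List.suffix_cons b _)
      have h1 := hcl y x w (List.suffix_refl _)
      have h2 := h1.length_le
      rw [ha, List.length_cons] at h2
      omega
    intro x y hxy
    rcases (hadj x y).1 hxy with h1 | h1
    · rw [Sym2.eq_swap]
      exact key y x hxy.symm h1
    · exact key x y hxy h1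

section

open HNNExtension HNNExtension.NormalWord

variable {D : Type u} [Group D] (A B : Subgroup D) (φ : A ≃* B)

/-- The base group in the HNN extension. -/
def hB : Subgroup (HNNExtension D A B φ) := (HNNExtension.of : D →* HNNExtension D A B φ).range

/-- The vertices of the Bass-Serre tree. -/
abbrev hV : Type u := HNNExtension D A B φ ⧸ hB A B φ

/-- The exponent sum of the stable letter. -/
def hX : HNNExtension D A B φ →* Multiplicative ℤ :=
  HNNExtension.lift 1 (Multiplicative.ofAdd 1) (by intro a; simp)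

theorem hX_of (g : D) : hX A B φ (HNNExtension.of g) = 1 := by
  rw [hX, HNNExtension.lift_of]
  rfl

theorem hX_t : hX A B φ HNNExtension.t = Multiplicative.ofAdd 1 := by
  rw [hX, HNNExtension.lift_t]

theorem hX_base {x : HNNExtension D A B φ} (hx : x ∈ hB A B φ) : hX A B φ x = 1 := by
  obtain ⟨g, rfl⟩ := hx
  exact hX_of A B φ g

/-- The Bass-Serre tree. -/
def hT : SimpleGraph (hV A B φ) where
  Adj x y := ∃ (h : HNNExtension D A B φ) (u : ℤˣ), x = (h : hV A B φ) ∧
    y = ((h * HNNExtension.t ^ (u : ℤ) : HNNExtension D A B φ) : hV A B φ)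
  symm := ⟨by
    rintro x y ⟨h, u, rfl, rfl⟩
    refine ⟨h * HNNExtension.t ^ (u : ℤ), -u, rfl, ?_⟩
    rw [Units.val_neg, zpow_neg, mul_inv_cancel_right]⟩
  loopless := ⟨by
    rintro x ⟨h, u, rfl, h2⟩
    rw [QuotientGroup.eq, inv_mul_cancel_left] at h2
    have h3 := hX_base A B φ h2
    rw [map_zpow, hX_t, ← ofAdd_zsmul] at h3
    have h4 : (u : ℤ) • (1 : ℤ) = 0 := h3
    rw [smul_eq_mul, mul_one] at h4
    exact u.ne_zero h4⟩

variable {A B}

/-- The list of a vertex. -/
noncomputable def hL (d : TransversalPair D A B) : hV A B φ → List (ℤˣ × D) :=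
  Quotient.lift (fun h => ((h⁻¹ • (empty : NormalWord d) : NormalWord d)).toList) (by
    intro a b hab
    have h1 : a⁻¹ * b ∈ hB A B φ := QuotientGroup.leftRel_apply.1 hab
    obtain ⟨g, hg⟩ := h1
    have h2 : b⁻¹ = HNNExtension.of g⁻¹ * a⁻¹ := by
      rw [map_inv, hg]
      group
    change (a⁻¹ • (empty : NormalWord d) : NormalWord d).toList
      = (b⁻¹ • (empty : NormalWord d) : NormalWord d).toList
    rw [h2, mul_smul, of_smul_eq_smul, group_smul_toList])

theorem hL_mk (d : TransversalPair D A B) (h : HNNExtension D A B φ) :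
    hL φ d (h : hV A B φ) = ((h⁻¹ • (empty : NormalWord d) : NormalWord d)).toList := rfl

theorem hL_injective (d : TransversalPair D A B) : Function.Injective (hL φ d) := by
  intro x y
  induction x using QuotientGroup.induction_on with
  | H x =>
  induction y using QuotientGroup.induction_on with
  | H y =>
  intro h
  rw [hL_mk, hL_mk] at h
  set w := (x⁻¹ • (empty : NormalWord d) : NormalWord d) with hw
  set w' := (y⁻¹ • (empty : NormalWord d) : NormalWord d) with hw'
  have h1 : w' = (w'.head * w.head⁻¹) • w := by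
    ext
    · rw [group_smul_head, inv_mul_cancel_right]
    · rw [group_smul_toList, h]
  have h2 : y⁻¹ = HNNExtension.of (w'.head * w.head⁻¹) * x⁻¹ := by
    apply (NormalWord.equiv φ d).injective
    change y⁻¹ • (empty : NormalWord d) = (HNNExtension.of (w'.head * w.head⁻¹) * x⁻¹) • empty
    rw [mul_smul, of_smul_eq_smul, ← hw, ← hw']
    exact h1
  rw [QuotientGroup.eq]
  refine ⟨(w'.head * w.head⁻¹)⁻¹, ?_⟩
  rw [map_inv]
  have h3 : HNNExtension.of (w'.head * w.head⁻¹) = y⁻¹ * x := by
    rw [h2, inv_mul_cancel_right]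
  rw [h3]
  group

/-- Multiplication by the stable letter on normal words. -/
theorem hnn_step (d : TransversalPair D A B) (u : ℤˣ) (w : NormalWord d) :
    (∃ a, w.toList = a :: (unitsSMul φ u w).toList) ∨
      ∃ a, (unitsSMul φ u w).toList = a :: w.toList := by
  unfold unitsSMul
  split_ifs with h
  · left
    induction w using consRecOn with
    | ofGroup g =>
      exact absurd h.2 (by simp)
    | cons g u' w h1 h2 _ =>
      exact ⟨(u', w.head), rfl⟩
  · right
    exact ⟨_, rfl⟩

theorem hT_adj (d : TransversalPair D A B) (x y : hV A B φ) :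
    (hT A B φ).Adj x y ↔ (∃ a, hL φ d x = a :: hL φ d y) ∨ ∃ a, hL φ d y = a :: hL φ d x := by
  have hback : ∀ x y : hV A B φ, (∃ a, hL φ d y = a :: hL φ d x) → (hT A B φ).Adj x y := by
    intro x y
    induction y using QuotientGroup.induction_on with
    | H y =>
    rintro ⟨⟨u, g⟩, ha⟩
    rw [hL_mk] at ha
    obtain ⟨w, hw⟩ : ∃ w, w = (y⁻¹ • (empty : NormalWord d) : NormalWord d) := ⟨_, rfl⟩
    have hy : y⁻¹ = w.prod φ := by
      rw [hw, prod_smul, prod_empty, mul_one]
    rw [← hw] at ha
    cases w using consRecOn with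
    | ofGroup g =>
      exact absurd ha (by simp)
    | cons g' u' w h1 h2 ih =>
      clear ih
      rw [cons_toList] at ha
      have h3 : w.toList = hL φ d x := (List.cons.inj ha).2
      have h4 : hL φ d (((w.prod φ)⁻¹ : HNNExtension D A B φ) : hV A B φ) = hL φ d x := by
        rw [hL_mk, inv_inv, prod_smul_empty, h3]
      have h5 := hL_injective φ d h4
      refine ⟨(w.prod φ)⁻¹, -u', h5.symm, ?_⟩
      rw [QuotientGroup.eq]
      refine ⟨g', ?_⟩
      rw [hy, prod_cons, Units.val_neg, zpow_neg]
      group
  constructor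
  · rintro ⟨h, u, rfl, rfl⟩
    rw [hL_mk, hL_mk, mul_inv_rev, mul_smul, ← zpow_neg, ← Units.val_neg,
      t_pow_smul_eq_unitsSMul]
    exact hnn_step φ d (-u) _
  · rintro (h | h)
    · exact (hback y x h).symm
    · exact hback x y h

theorem hT_isTree (A B : Subgroup D) (φ : A ≃* B) : (hT A B φ).IsTree := by
  obtain ⟨d⟩ := TransversalPair.nonempty D A B
  refine isTree_of_lists _ (hL φ d) (hL_injective φ d) ((1 : HNNExtension D A B φ) : hV A B φ) ?_
    ?_ (hT_adj φ d)
  · rw [hL_mk, inv_one, one_smul]
    rfl
  · intro y a l h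
    induction y using QuotientGroup.induction_on with
    | H y =>
    rw [hL_mk] at h
    obtain ⟨w, hw⟩ : ∃ w, w = (y⁻¹ • (empty : NormalWord d) : NormalWord d) := ⟨_, rfl⟩
    rw [← hw] at h
    clear hw
    cases w using consRecOn with
    | ofGroup g =>
      exact absurd h (by simp)
    | cons g' u' w h1 h2 ih =>
      clear ih
      rw [cons_toList] at h
      refine ⟨(((w.prod φ)⁻¹ : HNNExtension D A B φ) : hV A B φ), ?_⟩
      rw [hL_mk, inv_inv, prod_smul_empty]
      exact (List.cons.inj h).2

/-- The HNN extension acts on its Bass-Serre tree without inversions. -/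
theorem hT_treeAct {D : Type} [Group D] (A B : Subgroup D) (φ : A ≃* B) :
    TreeAct (HNNExtension D A B φ) (hV A B φ) (hT A B φ) where
  tree := hT_isTree A B φ
  adj := by
    rintro γ u v ⟨h, e, rfl, rfl⟩
    exact ⟨γ * h, e, rfl, by rw [mul_assoc]; rfl⟩
  inv := by
    rintro γ u v ⟨h, e, rfl, rfl⟩ h1 h2
    have h3 : ((γ * h : HNNExtension D A B φ) : hV A B φ)
      = ((h * HNNExtension.t ^ (e : ℤ) : HNNExtension D A B φ) : hV A B φ) := h1
    have h4 : ((γ * (h * HNNExtension.t ^ (e : ℤ)) : HNNExtension D A B φ) : hV A B φ)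
      = (h : hV A B φ) := h2
    rw [QuotientGroup.eq] at h3 h4
    have h5 := hX_base A B φ h3
    have h6 := hX_base A B φ h4
    simp only [map_mul, map_inv, map_zpow, hX_t] at h5 h6
    have h7 : -(Multiplicative.toAdd (hX A B φ γ) + Multiplicative.toAdd (hX A B φ h))
      + (Multiplicative.toAdd (hX A B φ h) + (e : ℤ) * 1) = 0 := by
      have := congrArg Multiplicative.toAdd h5
      simpa using this
    have h8 : -(Multiplicative.toAdd (hX A B φ γ) + (Multiplicative.toAdd (hX A B φ h)
      + (e : ℤ) * 1)) + Multiplicative.toAdd (hX A B φ h) = 0 := by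
      have := congrArg Multiplicative.toAdd h6
      simpa using this
    have h9 : (e : ℤ) = 0 := by linarith
    exact e.ne_zero h9

/-- The stabiliser of a vertex. -/
theorem mem_stab_hV {A B : Subgroup D} {φ : A ≃* B} (γ h : HNNExtension D A B φ) :
    γ • (h : hV A B φ) = (h : hV A B φ) ↔ h⁻¹ * γ * h ∈ hB A B φ := by
  have h1 : γ • (h : hV A B φ) = ((γ * h : HNNExtension D A B φ) : hV A B φ) := rfl
  rw [h1, eq_comm, QuotientGroup.eq, mul_assoc]

end

end E1aux

open E1aux

/-- Module E1. -/
theorem stE1 : StE1 := by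
  intro G _ A B φ
  refine ⟨hV A B φ, inferInstance, hT A B φ, hT_treeAct A B φ, fun v => ?_⟩
  induction v using QuotientGroup.induction_on with
  | H x =>
  refine ⟨x, fun g hg => ?_⟩
  obtain ⟨a, ha⟩ := (mem_stab_hV g x).1 hg
  refine ⟨a, ?_⟩
  rw [ha]
  group

end Pool.Agent.Lib.MP_e6f638_al
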